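import Pool.Agent.P.MP_b2ceab_nt.XE.Iface

/-! Step AUX. -/

set_option autoImplicit false
set_option linter.unusedSectionVars false

namespace Pool.Agent.P.MP_b2ceab_nt.XE

open Finset Polynomial

lemma aux_siegel {α β : Type} [Fintype α] [Fintype β] (M : α → β → ℤ) (H : ℕ) (h1 : 1 ≤ H)
    (hM : ∀ a b, |M a b| ≤ H) (hc : 2 * Fintype.card α ≤ Fintype.card β)
    (h0 : 0 < Fintype.card β) : ∃ g : β → ℤ, g ≠ 0 ∧ (∀ a, ∑ b, M a b * g b = 0) ∧
      ∀ b, |g b| ≤ (Fintype.card β * H : ℕ) := by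
  rcases Nat.eq_zero_or_pos (Fintype.card α) with h | h
  · obtain ⟨b⟩ := Fintype.card_pos_iff.1 h0
    refine ⟨1, fun e => one_ne_zero (congrFun e b),
      fun a => (Fintype.card_eq_zero_iff.1 h).elim a, fun b => ?_⟩
    rw [Pi.one_apply, abs_one]
    exact_mod_cast Nat.mul_pos h0 h1
  obtain ⟨g, g0, g1, g2⟩ := Int.Matrix.exists_ne_zero_int_vec_norm_le (Matrix.of M) (by omega) h
  refine ⟨g, g0, congrFun g1, fun b => ?_⟩
  have k0 : (1 : ℝ) ≤ Fintype.card β := by exact_mod_cast h0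
  have k1 : (1 : ℝ) ≤ H := by exact_mod_cast h1
  have k2 : (2 : ℝ) * Fintype.card α ≤ Fintype.card β := by exact_mod_cast hc
  have k3 : (0 : ℝ) < Fintype.card α := by exact_mod_cast h
  have := ((norm_le_pi_norm g b).trans g2).trans (Real.rpow_le_rpow_of_exponent_le
    (one_le_mul_of_one_le_of_one_le k0 (le_max_left _ _)) ((div_le_one (by linarith)).2
      (by linarith)))
  rw [Real.rpow_one] at this
  have := this.trans (mul_le_mul_of_nonneg_left (max_le k1 ((Matrix.norm_le_iff (by linarith)).2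
    fun a b => by rw [Int.norm_eq_abs]; exact_mod_cast hM a b)) (by linarith))
  rw [Int.norm_eq_abs] at this
  exact_mod_cast this

/-- the coefficients of a power in the mixed basis -/
def aux_c (N e s r : ℕ) : ℤ := if e % N = r then (-1) ^ (e / N - s) * ((e / N).choose s : ℤ) else 0

lemma aux_abs (N e s r : ℕ) : |aux_c N e s r| ≤ 2 ^ (e / N) := by
  unfold aux_c
  split_ifs
  · rw [abs_mul, abs_pow, abs_neg, abs_one, one_pow, one_mul, Nat.abs_cast]
    exact_mod_cast Nat.choose_le_two_pow _ _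
  · simp

lemma aux_exp {N : ℕ} (hN : 0 < N) (b e : ℕ) (y : ℤ) : (y ^ N + 1) ^ b ∣
    y ^ e - ∑ s : Fin b, ∑ r : Fin N, aux_c N e s r * ((y ^ N + 1) ^ (s : ℕ) * y ^ (r : ℕ)) := by
  obtain ⟨f, hf⟩ : ∃ f : ℕ → ℤ, ∀ s, f s =
    (y ^ N + 1) ^ s * (-1) ^ (e / N - s) * ((e / N).choose s : ℤ) := ⟨_, fun _ => rfl⟩
  have h1 : ∀ s : Fin b, ∑ r : Fin N, aux_c N e s r * ((y ^ N + 1) ^ (s : ℕ) * y ^ (r : ℕ)) =
      y ^ (e % N) * f s := fun s => by
    rw [sum_eq_single ⟨e % N, Nat.mod_lt _ hN⟩ (fun r _ h => by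
      rw [aux_c, if_neg fun q => h (Fin.ext q.symm), zero_mul]) (by simp), aux_c, if_pos rfl, hf]
    ring
  have h2 : y ^ e = y ^ (e % N) * ∑ s ∈ range (b + (e / N + 1)), f s := by
    rw [← sum_subset (range_subset_range.2 (Nat.le_add_left (e / N + 1) b)) fun s _ h => by
      rw [hf, Nat.choose_eq_zero_of_lt (by simpa using h)]; simp]
    simp only [hf]
    rw [← add_pow, add_neg_cancel_right, ← pow_mul, ← pow_add, Nat.mod_add_div]
  rw [sum_congr rfl fun s _ => h1 s, h2, ← mul_sum, Fin.sum_univ_eq_sum_range, sum_range_add,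
    ← mul_sub, add_sub_cancel_left]
  refine Dvd.dvd.mul_left (dvd_sum fun s _ => ?_) _
  rw [hf, pow_add, mul_assoc, mul_assoc]
  exact Dvd.intro _ rfl

theorem p_AUX :
    S_AUX := by
  intro ι _ N k a b A B hN hB hBA hc
  obtain ⟨g, g0, g1, g2⟩ := aux_siegel (α := Σ i, Fin (a i) × Fin (b i) × Fin (N i))
    (β := Fin A × Fin B) (fun p t => ((t.1 : ℕ).choose p.2.1 : ℤ) *
      aux_c (N p.1) (k p.1 * (t.1 - p.2.1) + t.2) p.2.2.1 p.2.2.2) (2 ^ A * 2 ^ (3 * A))
    (Nat.pos_of_ne_zero (by positivity)) (fun p t => by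
      have h1 : k p.1 * (t.1 - p.2.1) ≤ 2 * N p.1 * A :=
        Nat.mul_le_mul (hN _).2 ((Nat.sub_le _ _).trans t.1.2.le)
      have h2 : (t.2 : ℕ) ≤ N p.1 * A := (t.2.2.le.trans hBA).trans (Nat.le_mul_of_pos_left _ (hN _).1)
      rw [abs_mul, Nat.abs_cast]
      push_cast
      refine mul_le_mul ?_ ((aux_abs _ _ _ _).trans (pow_le_pow_right₀ one_le_two
        (Nat.div_le_of_le_mul (by linarith)))) (abs_nonneg _) (by positivity)
      exact_mod_cast (Nat.choose_le_two_pow _ _).trans (Nat.pow_le_pow_right two_pos t.1.2.le))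
    (by
      simp only [Fintype.card_sigma, Fintype.card_prod, Fintype.card_fin]
      exact (congrArg _ (sum_congr rfl fun i _ => by ring)).trans_le hc)
    (by simpa using ⟨hB.trans_le hBA, hB⟩)
  refine ⟨g, g0, fun t => (g2 t).trans ?_, fun i y j hj => ?_⟩
  · have h1 : A ≤ 2 ^ A := Nat.lt_two_pow_self.le
    have h2 : A * B * (2 ^ A * 2 ^ (3 * A)) ≤ 2 ^ (6 * A) :=
      (Nat.mul_le_mul_right _ (Nat.mul_le_mul h1 (hBA.trans h1))).trans_eq (by ring)
    rw [Fintype.card_prod, Fintype.card_fin, Fintype.card_fin]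
    exact_mod_cast h2
  · have h0 : ∑ t : Fin A × Fin B, g t * ((t.1 : ℕ).choose j : ℤ) * ∑ s : Fin (b i),
        ∑ r : Fin (N i), aux_c (N i) (k i * (t.1 - j) + t.2) s r *
          ((y ^ N i + 1) ^ (s : ℕ) * y ^ (r : ℕ)) = 0 := by
      simp only [mul_sum]
      rw [sum_comm]
      refine sum_eq_zero fun s _ => sum_comm.trans (sum_eq_zero fun r _ => ?_)
      have := congrArg (· * ((y ^ N i + 1) ^ (s : ℕ) * y ^ (r : ℕ))) (g1 ⟨i, ⟨j, hj⟩, s, r⟩)
      simp only [sum_mul, zero_mul] at this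
      exact (sum_congr rfl fun t _ => by ring).trans this
    rw [← sub_zero (tay _ _ _ _), ← h0, tay, ← sum_sub_distrib]
    refine dvd_sum fun t _ => ?_
    rw [mul_assoc, ← pow_mul, ← pow_add, ← mul_sub]
    exact (aux_exp (hN i).1 _ _ y).mul_left _

end Pool.Agent.P.MP_b2ceab_nt.XE
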