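import Pool.Agent.P.MP_b2ceab_nt.XE.Iface

/-! Step BEZ. -/

set_option autoImplicit false
set_option linter.unusedSectionVars false

namespace Pool.Agent.P.MP_b2ceab_nt.XE

open Finset Polynomial

theorem p_BEZ :
    S_BEZ := by
  intro R _ _ F H hF hd hH
  haveI : IsDomain (AdjoinRoot F) := AdjoinRoot.isDomain_of_prime hF
  have inj : Function.Injective (algebraMap R (AdjoinRoot F)) :=
    AdjoinRoot.of.injective_of_degree_ne_zero (natDegree_pos_iff_degree_pos.1 hd).ne'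
  haveI : FaithfulSMul R (AdjoinRoot F) := (faithfulSMul_iff_algebraMap_injective _ _).2 inj
  have a1 : IsAlgebraic R (AdjoinRoot.root F) := ⟨F, hF.ne_zero, by simp⟩
  have a2 : IsAlgebraic R (AdjoinRoot.mk F H) := by
    rw [← AdjoinRoot.aeval_eq, aeval_eq_sum_range]
    refine Finset.sum_induction _ _ (fun a b => IsAlgebraic.add) isAlgebraic_zero fun i _ => ?_
    rw [Algebra.smul_def]
    exact (isAlgebraic_algebraMap _).mul (a1.pow i)
  obtain ⟨ρ, h0, V, hV⟩ := a2.exists_nonzero_dvd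
    (mem_nonZeroDivisors_of_ne_zero fun e => hH (AdjoinRoot.mk_eq_zero.1 e))
  obtain ⟨V, rfl⟩ := AdjoinRoot.mk_surjective V
  rw [← map_mul, AdjoinRoot.algebraMap_eq, ← AdjoinRoot.mk_C, AdjoinRoot.mk_eq_mk] at hV
  obtain ⟨U, hU⟩ := hV
  exact ⟨ρ, h0, U, V, by linear_combination hU⟩

end Pool.Agent.P.MP_b2ceab_nt.XE
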