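import Pool.Agent.P.MP_b2ceab_nt.XE.Iface
import Pool.Agent.P.MP_7aad9f_nt.SubFinal

/-! Step CERT. -/

set_option autoImplicit false
set_option linter.unusedSectionVars false

namespace Pool.Agent.P.MP_b2ceab_nt.XE

open Finset Polynomial

open Pool.Agent.P.MP_7aad9f_nt.Sub in
theorem cert_abc : ∃ K : ℝ, 0 < K ∧ ∀ (y : ℕ) (X : ℝ), 2 ≤ y → 1 ≤ X →
    (rad (y ^ 2 - 1) : ℝ) ≤ X ^ 2 →
    Real.log y ≤ K * X ^ (1 / 8 : ℝ) := by
  obtain ⟨K, h⟩ := main_final (1 / 16) (by norm_num)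
  refine ⟨1 + 2 * |K|, by positivity, fun y X hy hX hr => ?_⟩
  have n0 : y ^ 2 - 1 ≠ 0 := by have : 2 ^ 2 ≤ y ^ 2 := Nat.pow_le_pow_left hy 2; omega
  have W1 : 1 ≤ X ^ (1 / 8 : ℝ) := Real.one_le_rpow hX (by norm_num)
  have k : ∀ a b c : ℕ, 0 < a → 0 < b → a.Coprime b → a + b = c → a * b * c ∣ 2 * (y ^ 2 - 1) →
      y ≤ 2 * c → Real.log y ≤ (1 + 2 * |K|) * X ^ (1 / 8 : ℝ) := fun a b c ha hb hc e hd hl => by
    have a1 : rad (a * b * c) ≤ 2 * rad (y ^ 2 - 1) := by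
      have : (a * b * c).primeFactors ⊆ insert 2 (y ^ 2 - 1).primeFactors := by
        have := Nat.primeFactors_mono hd (by omega)
        rwa [Nat.primeFactors_mul two_ne_zero n0, Nat.prime_two.primeFactors] at this
      refine (prod_le_prod_of_subset_of_one_le' this fun p hp _ => ?_).trans ?_
      · rcases mem_insert.1 hp with rfl | a
        · norm_num
        · exact (Nat.prime_of_mem_primeFactors a).pos
      · by_cases m : 2 ∈ (y ^ 2 - 1).primeFactors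
        · rw [insert_eq_of_mem m, rad]; omega
        · rw [prod_insert m, rad]
    have a2 : (rad (a * b * c) : ℝ) ^ (1 / 16 : ℝ) ≤ 2 * X ^ (1 / 8 : ℝ) := by
      have : (rad (a * b * c) : ℝ) ≤ 2 * rad (y ^ 2 - 1) := by exact_mod_cast a1
      refine (Real.rpow_le_rpow (by positivity) (show _ ≤ 2 * X ^ 2 by linarith)
        (by norm_num)).trans ?_
      rw [Real.mul_rpow (by norm_num) (by positivity), ← Real.rpow_natCast,
        ← Real.rpow_mul (by linarith)]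
      norm_num
      exact mul_le_mul_of_nonneg_right (Real.rpow_le_self_of_one_le (by norm_num) (by norm_num))
        (by positivity)
    have a3 := (h a b c ha hb hc e).trans
      (mul_le_mul (le_abs_self K) a2 (by positivity) (abs_nonneg K))
    have a4 : Real.log y ≤ Real.log (2 * c) :=
      Real.log_le_log (by exact_mod_cast (show 0 < y by omega)) (by exact_mod_cast hl)
    rw [Real.log_mul two_ne_zero (by exact_mod_cast (show c ≠ 0 by omega))] at a4
    nlinarith [Real.log_two_lt_d9]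
  rcases Nat.even_or_odd' y with ⟨u, rfl | rfl⟩
  · obtain ⟨v, rfl⟩ : ∃ v, u = v + 1 := ⟨u - 1, by omega⟩
    exact k (2 * v + 1) 2 (2 * v + 3) (by omega) two_pos (by simp) rfl
      ⟨1, by
        rw [show (2 * (v + 1)) ^ 2 = (2 * v + 1) * (2 * v + 3) + 1 by ring, Nat.add_sub_cancel]
        ring⟩
      (by omega)
  · exact k u 1 (u + 1) (by omega) one_pos (by simp) rfl
      ⟨8, by rw [show (2 * u + 1) ^ 2 = 4 * (u * (u + 1)) + 1 by ring, Nat.add_sub_cancel]; ring⟩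
      (by omega)

open Pool.Agent.P.MP_7aad9f_nt.Sub in
theorem cert_log (δ : ℝ) (hδ : 0 < δ) : ∃ C : ℝ, 0 < C ∧ ∀ X y R : ℕ, 1 ≤ X → 2 ≤ y → 1 ≤ R →
    R ≤ X ^ 2 → (∀ p : ℕ, p.Prime → p ∣ y ^ 2 - 1 → p ∣ R) →
    ((Nat.log 2 (Nat.log 2 y) + 1 : ℕ) : ℝ) ≤ C * (X : ℝ) ^ δ := by
  obtain ⟨K, hK, h⟩ := cert_abc
  refine ⟨1 + 2 * (2 * K) ^ δ / δ, by positivity, fun X y R hX hy hR hRX hp => ?_⟩
  have hX' : (1 : ℝ) ≤ X := by exact_mod_cast hX
  have r1 : rad (y ^ 2 - 1) ≤ R := by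
    refine Nat.le_of_dvd hR (dvd_trans ?_ (Nat.prod_primeFactors_dvd R))
    exact prod_dvd_prod_of_subset _ _ _ fun p h1 => Nat.mem_primeFactors.2
      ⟨Nat.prime_of_mem_primeFactors h1, hp p (Nat.prime_of_mem_primeFactors h1)
        (Nat.dvd_of_mem_primeFactors h1), by omega⟩
  have h1 := h y X hy hX' (by exact_mod_cast r1.trans hRX)
  have h2 : (X : ℝ) ^ (1 / 8 : ℝ) ≤ X := Real.rpow_le_self_of_one_le hX' (by norm_num)
  have l2 := Real.log_two_gt_d9
  have k : ∀ n : ℕ, n ≠ 0 → (Nat.log 2 n : ℝ) ≤ 2 * Real.log n := fun n hn => by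
    have a : ((2 ^ Nat.log 2 n : ℕ) : ℝ) ≤ n := by exact_mod_cast Nat.pow_log_le_self 2 hn
    have b := Real.log_le_log (by positivity) a
    rw [Nat.cast_pow, Real.log_pow, Nat.cast_ofNat] at b
    have : (0 : ℝ) ≤ Nat.log 2 n := Nat.cast_nonneg _
    nlinarith
  have p1 : 0 < Nat.log 2 y := Nat.log_pos one_lt_two hy
  have h3 : (Nat.log 2 y : ℝ) ≤ 2 * K * X := by
    have := k y (by omega)
    nlinarith
  have h4 := k _ p1.ne'
  have h5 : Real.log (Nat.log 2 y) ≤ (2 * K * X) ^ δ / δ :=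
    (Real.log_le_log (by exact_mod_cast p1) h3).trans (Real.log_le_rpow_div (by positivity) hδ)
  rw [Real.mul_rpow (by positivity) (by positivity)] at h5
  have h6 : (1 : ℝ) ≤ (X : ℝ) ^ δ := Real.one_le_rpow hX' hδ.le
  push_cast
  have e : (1 + 2 * (2 * K) ^ δ / δ) * (X : ℝ) ^ δ =
      (X : ℝ) ^ δ + 2 * ((2 * K) ^ δ * (X : ℝ) ^ δ / δ) := by ring
  rw [e]; linarith

theorem p_CERT (hOM : S_OM) (hGAP : S_GAP) :
    S_CERT := by
  classical
  intro K δ hK hδ
  obtain ⟨C1, hC1, h1⟩ := cert_log δ hδ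
  obtain ⟨C2, hC2, h2⟩ := hOM (2 ^ (2 * K + 1) * K) δ hδ
  refine ⟨C1 * C2, by positivity, fun X M hX S hS => ?_⟩
  choose! m hm using fun y hy => (hS y hy).2.2
  set N := ⌊C1 * (X : ℝ) ^ δ⌋₊ with hN
  set B := ⌊C2 * (M : ℝ) ^ δ⌋₊ with hB
  have key : S.card ≤ B * (Icc 1 M ×ˢ range N).card := by
    refine card_le_mul_card_image_of_maps_to
      (f := fun y => (m y, Nat.log 2 (Nat.log 2 y))) (fun y hy => ?_) B fun z hz => ?_
    · obtain ⟨a, ⟨R, b1, b2, b3⟩, -⟩ := hS y hy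
      refine mem_product.2 ⟨mem_Icc.2 ⟨(hm y hy).1, (hm y hy).2.1⟩, mem_range.2 ?_⟩
      exact Nat.le_floor (h1 X y R hX a b1 b2 b3)
    · obtain ⟨a1, a2⟩ := mem_Icc.1 (mem_product.1 hz).1
      refine Nat.le_floor (le_trans ?_ ((h2 z.1 a1).trans ?_))
      · have := hGAP K z.1 (2 ^ 2 ^ z.2) hK a1
          (Nat.le_self_pow (by positivity) 2) (S.filter fun y =>
            (m y, Nat.log 2 (Nat.log 2 y)) = z) fun y hy0 => by
          obtain ⟨hy, rfl⟩ := mem_filter.1 hy0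
          have y2 := (hS y hy).1
          have p1 : 0 < Nat.log 2 y := Nat.log_pos one_lt_two y2
          refine ⟨?_, ?_, (hm y hy).2.2⟩
          · exact (Nat.pow_le_pow_right two_pos (Nat.pow_log_le_self 2 p1.ne')).trans
              (Nat.pow_log_le_self 2 (by omega))
          · refine (Nat.lt_pow_succ_log_self one_lt_two y).trans_le ?_
            rw [← pow_mul, ← pow_succ]
            exact Nat.pow_le_pow_right two_pos (Nat.lt_pow_succ_log_self one_lt_two _)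
        exact_mod_cast this
      · gcongr
  rw [card_product, Nat.card_Icc, card_range, Nat.add_sub_cancel] at key
  have k1 : (N : ℝ) ≤ C1 * (X : ℝ) ^ δ := Nat.floor_le (by positivity)
  have k2 : (B : ℝ) ≤ C2 * (M : ℝ) ^ δ := Nat.floor_le (by positivity)
  have k3 : (S.card : ℝ) ≤ B * (M * N) := by exact_mod_cast key
  rw [Real.rpow_add' (Nat.cast_nonneg _) (by linarith), Real.rpow_one]
  calc (S.card : ℝ) ≤ C2 * (M : ℝ) ^ δ * (M * (C1 * (X : ℝ) ^ δ)) := k3.trans (by gcongr)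
    _ = _ := by ring

end Pool.Agent.P.MP_b2ceab_nt.XE
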