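import Pool.Agent.P.MP_b2ceab_nt.XE.Iface

/-! Step CNT. -/

set_option autoImplicit false
set_option linter.unusedSectionVars false

namespace Pool.Agent.P.MP_b2ceab_nt.XE

open Finset Polynomial

theorem cnt_sum {σ : ℝ} (hσ : 0 < σ) (P S : Finset ℕ) (hP : ∀ p ∈ P, p.Prime)
    (hS : ∀ u ∈ S, u ∈ Nat.factoredNumbers P) :
    ∑ u ∈ S, (u : ℝ) ^ (-σ) ≤ ((1 - (2 : ℝ) ^ (-σ))⁻¹) ^ P.card := by
  let f : ℕ →* ℝ :=
    { toFun := fun n => (n : ℝ) ^ (-σ)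
      map_one' := by simp
      map_mul' := fun a b => by
        rw [Nat.cast_mul, Real.mul_rpow (Nat.cast_nonneg _) (Nat.cast_nonneg _)] }
  have h2 : (2 : ℝ) ^ (-σ) < 1 := Real.rpow_lt_one_of_one_lt_of_neg one_lt_two (by linarith)
  have hp : ∀ {p : ℕ}, p.Prime → (p : ℝ) ^ (-σ) ≤ (2 : ℝ) ^ (-σ) := fun hp =>
    Real.rpow_le_rpow_of_nonpos two_pos (by exact_mod_cast hp.two_le) (by linarith)
  have hf : ∀ n : ℕ, 0 ≤ f n := fun n => Real.rpow_nonneg (Nat.cast_nonneg _) _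
  have h := (EulerProduct.summable_and_hasSum_factoredNumbers_prod_filter_prime_geometric (f := f)
    (fun {p} hq => by rw [Real.norm_of_nonneg (hf p)]; exact (hp hq).trans_lt h2) P).2
  have h1 := sum_le_hasSum (S.subtype (· ∈ Nat.factoredNumbers P)) (fun i _ => hf i) h
  rw [sum_subtype_of_mem (fun n : ℕ => f n) hS, filter_true_of_mem hP] at h1
  refine h1.trans ?_
  rw [← prod_const]
  refine prod_le_prod (fun p hq => inv_nonneg.2 ?_) fun p hq => inv_anti₀ (by linarith) ?_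
  · have := hp (hP p hq)
    show 0 ≤ 1 - (p : ℝ) ^ (-σ)
    linarith
  · have := hp (hP p hq)
    show 1 - (2 : ℝ) ^ (-σ) ≤ 1 - (p : ℝ) ^ (-σ)
    linarith

theorem p_CNT (hOM : S_OM) :
    S_CNT := by
  intro δ hδ
  have hσ : 0 < δ / 2 := by linarith
  obtain ⟨C, hC, h⟩ := hOM ⌈(1 - (2 : ℝ) ^ (-(δ / 2)))⁻¹⌉₊ (δ / 2) hσ
  refine ⟨C, hC, fun R Y hR hRY S hS => ?_⟩
  have hY : (0 : ℝ) < Y := by exact_mod_cast (by omega : 0 < Y)
  have h2 : (2 : ℝ) ^ (-(δ / 2)) < 1 :=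
    Real.rpow_lt_one_of_one_lt_of_neg one_lt_two (by linarith)
  have h1 := cnt_sum hσ R.primeFactors S (fun p hp => Nat.prime_of_mem_primeFactors hp)
    fun u hu => Nat.mem_factoredNumbers'.2 fun p hp hd =>
      Nat.mem_primeFactors.2 ⟨hp, (hS u hu).2.2 p hp hd, by omega⟩
  have h3 : ((1 - (2 : ℝ) ^ (-(δ / 2)))⁻¹) ^ R.primeFactors.card ≤ C * (Y : ℝ) ^ (δ / 2) := by
    refine (pow_le_pow_left₀ (inv_nonneg.2 (by linarith)) (Nat.le_ceil _) _).trans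
      ((h R hR).trans (mul_le_mul_of_nonneg_left ?_ hC.le))
    exact Real.rpow_le_rpow (Nat.cast_nonneg _) (by exact_mod_cast hRY) hσ.le
  have h4 : (S.card : ℝ) * (Y : ℝ) ^ (-(δ / 2)) ≤ ∑ u ∈ S, (u : ℝ) ^ (-(δ / 2)) := by
    rw [← nsmul_eq_mul]
    refine card_nsmul_le_sum _ _ _ fun u hu => ?_
    exact Real.rpow_le_rpow_of_nonpos (by exact_mod_cast (hS u hu).1)
      (by exact_mod_cast (hS u hu).2.1) (by linarith)
  have h5 := mul_le_mul_of_nonneg_right (h4.trans (h1.trans h3))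
    (Real.rpow_nonneg hY.le (δ / 2))
  rw [mul_assoc, mul_assoc, ← Real.rpow_add hY, ← Real.rpow_add hY, neg_add_cancel,
    Real.rpow_zero, mul_one, add_halves] at h5
  exact h5

end Pool.Agent.P.MP_b2ceab_nt.XE
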