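import Pool.Agent.P.MP_b2ceab_nt.XE.Iface

/-! Step COLL. -/

set_option autoImplicit false
set_option linter.unusedSectionVars false

namespace Pool.Agent.P.MP_b2ceab_nt.XE

open Finset Polynomial

theorem coll_pow (N e : ℕ) :
    (X ^ N + 1 : ℤ[X]) ∣ X ^ e - C ((-1 : ℤ) ^ (e / N)) * X ^ (e % N) := by
  have h1 : (X ^ N - (-1) : ℤ[X]) ∣ (X ^ N) ^ (e / N) - (-1) ^ (e / N) :=
    sub_dvd_pow_sub_pow _ _ _
  have h2 : (X ^ e : ℤ[X]) = (X ^ N) ^ (e / N) * X ^ (e % N) := by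
    rw [← pow_mul, ← pow_add, Nat.div_add_mod]
  have h3 : (C ((-1 : ℤ) ^ (e / N)) : ℤ[X]) = (-1) ^ (e / N) := by
    rw [C_pow, C_neg, C_1]
  rw [sub_neg_eq_add] at h1
  rw [h3, h2, ← sub_mul]
  exact h1.mul_right _

theorem coll_sum (F : ℤ[X][X]) (k : ℕ) :
    (F.map (eval₂RingHom (C : ℤ →+* ℤ[X]) (X ^ k))).eval X =
      ∑ t ∈ F.support.sigma (fun l => (F.coeff l).support),
        C ((F.coeff t.1).coeff t.2) * X ^ (k * t.2 + t.1) := by
  rw [eval_map, eval₂_eq_sum, Polynomial.sum_def, Finset.sum_sigma]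
  refine Finset.sum_congr rfl fun l _ => ?_
  rw [coe_eval₂RingHom, eval₂_eq_sum, Polynomial.sum_def, Finset.sum_mul]
  refine Finset.sum_congr rfl fun a _ => ?_
  rw [← pow_mul, pow_add, mul_assoc]

theorem p_COLL :
    S_COLL := by
  intro F N k hF hN hd
  by_contra hcon
  have hinj : ∀ a l a' l' : ℕ, (F.coeff l).coeff a ≠ 0 → (F.coeff l').coeff a' ≠ 0 →
      (k * a + l) % N = (k * a' + l') % N → a = a' ∧ l = l' := by
    intro a l a' l' h1 h2 h3
    by_contra hne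
    exact hcon ⟨a, l, a', l', h1, h2, hne, h3⟩
  rw [coll_sum] at hd
  set T := F.support.sigma (fun l => (F.coeff l).support) with hT
  set Pt : ℤ[X] := ∑ t ∈ T, C ((F.coeff t.1).coeff t.2) *
    (C ((-1 : ℤ) ^ ((k * t.2 + t.1) / N)) * X ^ ((k * t.2 + t.1) % N)) with hPt
  have hdiff : (X ^ N + 1 : ℤ[X]) ∣
      (∑ t ∈ T, C ((F.coeff t.1).coeff t.2) * X ^ (k * t.2 + t.1)) - Pt := by
    rw [hPt, ← Finset.sum_sub_distrib]
    refine Finset.dvd_sum fun t _ => ?_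
    rw [← mul_sub]
    exact (coll_pow N _).mul_left _
  have hdP : (X ^ N + 1 : ℤ[X]) ∣ Pt := by
    have := dvd_sub hd hdiff
    rwa [sub_sub_cancel] at this
  have hdeg : Pt.degree < (X ^ N + 1 : ℤ[X]).degree := by
    have hN' : (X ^ N + 1 : ℤ[X]).degree = N := by
      have := degree_X_pow_add_C (R := ℤ) hN 1
      rwa [C_1] at this
    rw [hN', hPt, ← mem_degreeLT]
    refine Submodule.sum_mem _ fun t _ => ?_
    rw [mem_degreeLT, ← mul_assoc, ← C_mul]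
    refine (degree_C_mul_X_pow_le _ _).trans_lt ?_
    exact_mod_cast Nat.mod_lt _ hN
  have h0 : Pt = 0 := eq_zero_of_dvd_of_degree_lt hdP hdeg
  obtain ⟨l0, hl0⟩ : F.support.Nonempty := support_nonempty.mpr hF
  have hl0' : F.coeff l0 ≠ 0 := mem_support_iff.mp hl0
  obtain ⟨a0, ha0⟩ : (F.coeff l0).support.Nonempty := support_nonempty.mpr hl0'
  have ha0' : (F.coeff l0).coeff a0 ≠ 0 := mem_support_iff.mp ha0
  have hmem : (⟨l0, a0⟩ : Σ _ : ℕ, ℕ) ∈ T := by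
    rw [hT, Finset.mem_sigma]
    exact ⟨hl0, ha0⟩
  have hc : Pt.coeff ((k * a0 + l0) % N) =
      (F.coeff l0).coeff a0 * (-1 : ℤ) ^ ((k * a0 + l0) / N) := by
    rw [hPt, finsetSum_coeff, Finset.sum_eq_single_of_mem _ hmem]
    · rw [← mul_assoc, ← C_mul, coeff_C_mul_X_pow, if_pos rfl]
    · rintro ⟨l, a⟩ ht hne
      rw [← mul_assoc, ← C_mul, coeff_C_mul_X_pow, if_neg]
      intro he
      rw [hT, Finset.mem_sigma] at ht
      obtain ⟨e1, e2⟩ := hinj a0 l0 a l ha0' (mem_support_iff.mp ht.2) he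
      subst e1
      subst e2
      exact hne rfl
  rw [h0, coeff_zero] at hc
  exact mul_ne_zero ha0' (pow_ne_zero _ (by norm_num)) hc.symm

end Pool.Agent.P.MP_b2ceab_nt.XE
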