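import Pool.Agent.P.MP_b2ceab_nt.XE.Iface

/-! Step CURVE. -/

set_option autoImplicit false
set_option linter.unusedSectionVars false

namespace Pool.Agent.P.MP_b2ceab_nt.XE

open Finset Polynomial

theorem curve_mono {n n' c c' x : ℕ} (h : Good n c x) (hn : n ≤ n') (hc : c ∣ c') (h0 : 0 < c') :
    Good n' c' x := by
  rcases h with h | ⟨m, m1, m2, h⟩
  · exact Or.inl (h.trans (Nat.le_of_dvd h0 hc))
  · exact Or.inr ⟨m, m1, m2.trans hn, fun p hp hd => (h p hp hd).trans hc⟩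

theorem curve_prime (hLEV : S_LEV) (hDEP : S_DEP) (hTORS : S_TORS) (F : ℤ[X][X]) (hF : Prime F) :
    ∃ n1 c : ℕ, 0 < c ∧ ∀ x y : ℕ, 2 ≤ x → x < y → Hy (n1 + 1) x y →
      F.evalEval (x : ℤ) (y : ℤ) = 0 → Good n1 c x := by
  rcases Nat.eq_zero_or_pos F.natDegree with h0 | h0
  · have e := eq_C_of_natDegree_eq_zero h0
    have hf : F.coeff 0 ≠ 0 := fun h => hF.ne_zero (by rw [e, h, C_0])
    refine ⟨0, (F.coeff 0).roots.toFinset.sup Int.natAbs + 1, Nat.succ_pos _,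
      fun x y _ _ _ h => Or.inl ?_⟩
    rw [e, evalEval_C] at h
    have hm : (x : ℤ) ∈ (F.coeff 0).roots.toFinset :=
      Multiset.mem_toFinset.2 ((mem_roots hf).2 h)
    have := le_sup (f := Int.natAbs) hm
    rw [Int.natAbs_natCast] at this
    omega
  · obtain ⟨n, c, n1, c0, h⟩ := hTORS F hF h0
    refine ⟨n, 2 * c, by omega, fun x y hx hxy hH hz => ?_⟩
    rcases h with ⟨a, l, a', l', a1, a2, a3, h⟩ | h
    · exact absurd (hDEP n x y a l a' l' n1 hx hxy hH a1 a2 (by exact_mod_cast h x y hz)) a3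
    · refine Or.inr ⟨n, n1, le_rfl, fun p hp hd => ?_⟩
      by_cases h2 : p = 2
      · rw [h2]; exact Dvd.intro _ rfl
      · have b1 := (hLEV (n + 1) y x n p hH.symm n1 (by omega) hp h2 hd).1
        obtain ⟨-, -, k, k1, k2, k3⟩ := hLEV (n + 1) x y n p hH n1 (by omega) hp h2 b1
        exact (h x y p k k2 k1 hz (by exact_mod_cast b1) k3).mul_left _

theorem curve_all (hLEV : S_LEV) (hDEP : S_DEP) (hTORS : S_TORS) (G : ℤ[X][X]) :
    G ≠ 0 → ∃ n1 c : ℕ, 0 < c ∧ ∀ x y : ℕ, 2 ≤ x → x < y → Hy (n1 + 1) x y →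
      G.evalEval (x : ℤ) (y : ℤ) = 0 → Good n1 c x := by
  induction G using UniqueFactorizationMonoid.induction_on_prime with
  | h₁ => exact fun h => absurd rfl h
  | h₂ u hu =>
    refine fun _ => ⟨0, 1, one_pos, fun x y _ _ _ h => ?_⟩
    exact absurd h (hu.map (evalEvalRingHom (x : ℤ) (y : ℤ))).ne_zero
  | h₃ a p ha hp ih =>
    obtain ⟨n1, c1, h1, k1⟩ := ih ha
    obtain ⟨n2, c2, h2, k2⟩ := curve_prime hLEV hDEP hTORS p hp
    refine fun _ => ⟨max n1 n2, c1 * c2, mul_pos h1 h2, fun x y hx hxy hH h => ?_⟩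
    rw [evalEval_mul] at h
    rcases mul_eq_zero.1 h with h | h
    · exact curve_mono (k2 x y hx hxy (hH.mono (by omega)) h) (le_max_right _ _)
        (Dvd.intro_left _ rfl) (mul_pos h1 h2)
    · exact curve_mono (k1 x y hx hxy (hH.mono (by omega)) h) (le_max_left _ _)
        (Dvd.intro _ rfl) (mul_pos h1 h2)

theorem p_CURVE (hLEV : S_LEV) (hDEP : S_DEP) (hTORS : S_TORS) :
    S_CURVE := by
  intro A B g hg
  have hG : (∑ t : Fin A × Fin B, C (C (g t) * X ^ (t.1 : ℕ)) * X ^ (t.2 : ℕ) : ℤ[X][X]) ≠ 0 := by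
    intro h
    refine hg (funext fun s => ?_)
    have := congrArg (fun G : ℤ[X][X] => (G.coeff s.2).coeff s.1) h
    simp only [finsetSum_coeff, coeff_C_mul_X_pow, coeff_zero] at this
    rw [sum_eq_single s (fun t _ ht => ?_) (fun h => absurd (mem_univ _) h)] at this
    · simpa using this
    · split_ifs with c
      · rw [coeff_C_mul_X_pow, if_neg]
        exact fun c' => ht (Prod.ext (Fin.ext c'.symm) (Fin.ext c.symm))
      · exact coeff_zero _
  obtain ⟨n1, c, h0, h⟩ := curve_all hLEV hDEP hTORS _ hG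
  refine ⟨n1, c, h0, fun x y hx hxy hH ht => h x y hx hxy hH ?_⟩
  rw [← ht, tay, evalEval_finsetSum]
  refine sum_congr rfl fun t _ => ?_
  simp [evalEval_mul, evalEval_C, evalEval_pow]

end Pool.Agent.P.MP_b2ceab_nt.XE
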