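import Pool.Agent.P.MP_b2ceab_nt.XE.Iface

/-! Step DEP. -/

set_option autoImplicit false
set_option linter.unusedSectionVars false

namespace Pool.Agent.P.MP_b2ceab_nt.XE

open Finset Polynomial

theorem dep_neg {p A : ℕ} (h : p ∣ A + 1) : (A : ZMod p) = -1 := by
  have := (ZMod.natCast_eq_zero_iff (A + 1) p).2 h
  push_cast at this
  exact eq_neg_of_add_eq_zero_left this

theorem dep_core (hLEV : S_LEV) (n x y : ℕ) (hn : 1 ≤ n) (hx : 2 ≤ x) (hxy : x < y)
    (hH : Hy (n + 1) x y) : ∀ e f : ℕ, 1 ≤ e → f ≤ 2 ^ n → y ^ e ≠ x ^ f := by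
  intro e
  induction e using Nat.strong_induction_on with
  | _ e ih =>
  intro f he hf h
  have hf1 : 1 ≤ f := by
    rcases Nat.eq_zero_or_pos f with rfl | h0
    · have : 1 < y ^ e := Nat.one_lt_pow (by omega) (by omega)
      simp only [pow_zero] at h; omega
    · exact h0
  by_cases hee : Even e ∧ Even f
  · obtain ⟨⟨e', rfl⟩, ⟨f', rfl⟩⟩ := hee
    refine ih e' (by omega) f' (by omega) (by omega) ?_
    rw [pow_add, pow_add] at h
    exact Nat.mul_self_inj.1 h
  have hN : 0 < 2 ^ n := by positivity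
  have hAB : x ^ 2 ^ n < y ^ 2 ^ n := Nat.pow_lt_pow_left hxy hN.ne'
  have hA1 : 1 ≤ x ^ 2 ^ n := Nat.one_le_pow _ _ (by omega)
  have hpow : (y ^ 2 ^ n) ^ e = (x ^ 2 ^ n) ^ f := by
    rw [← pow_mul, mul_comm, pow_mul, h, ← pow_mul, mul_comm, pow_mul]
  have h4 : ¬ 4 ∣ y ^ 2 ^ n + 1 := by
    obtain ⟨m, rfl⟩ := Nat.exists_eq_add_of_le' hn
    rw [pow_succ, pow_mul]
    generalize y ^ 2 ^ m = z
    have : z % 4 = 0 ∨ z % 4 = 1 ∨ z % 4 = 2 ∨ z % 4 = 3 := by omega
    intro h5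
    have h6 := Nat.mod_eq_zero_of_dvd h5
    rcases this with h7 | h7 | h7 | h7 <;> simp [Nat.add_mod, Nat.pow_mod, h7] at h6
  have hodd : Odd (y ^ 2 ^ n) → Odd (x ^ 2 ^ n) := fun h1 => by
    have h2 : Odd ((x ^ 2 ^ n) ^ f) := hpow ▸ h1.pow
    exact (Nat.odd_pow_iff (by omega)).1 h2
  have hlev : ∀ p : ℕ, p.Prime → p ≠ 2 → p ∣ y ^ 2 ^ n + 1 → p ∣ x ^ 2 ^ n + 1 ∧ f < p :=
    fun p hp h2 h3 => by
      obtain ⟨h5, h6, -⟩ := hLEV (n + 1) x y n p hH hn (by omega) hp h2 h3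
      have := hp.two_le
      have := Nat.le_of_dvd (by omega) h6
      exact ⟨h5, by omega⟩
  generalize x ^ 2 ^ n = A at *
  generalize y ^ 2 ^ n = B at *
  obtain ⟨t, U, hU, hB⟩ := Nat.exists_eq_two_pow_mul_odd (n := B + 1) (by omega)
  have hUB : U ∣ B + 1 := hB ▸ Dvd.intro_left _ rfl
  have hp2 : ∀ p : ℕ, p ∣ U → p ≠ 2 := fun p h1 h2 => by
    subst h2
    exact (Nat.not_even_iff_odd.2 hU) (even_iff_two_dvd.2 h1)
  have ht : t = 0 ∨ t = 1 := by
    by_contra h1
    obtain ⟨s, rfl⟩ := Nat.exists_eq_add_of_le (show 2 ≤ t by omega)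
    exact h4 ⟨2 ^ s * U, by rw [hB]; ring⟩
  have hUA : U ∣ A + 1 := by
    by_cases hoo : Odd e ∧ Odd f
    · have h1 : (1 - -(A : ℤ)) * ∑ i ∈ range f, (-(A : ℤ)) ^ i = 1 - (-(A : ℤ)) ^ f :=
        mul_neg_geom_sum _ _
      rw [hoo.2.neg_pow, sub_neg_eq_add, sub_neg_eq_add] at h1
      have h2 : U ∣ A ^ f + 1 := by
        have := hoo.1.nat_add_dvd_pow_add_pow B 1
        rw [one_pow, hpow] at this
        exact hUB.trans this
      have h3 : A ^ f + 1 = (A + 1) * (∑ i ∈ range f, (-(A : ℤ)) ^ i).natAbs := by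
        have := congrArg Int.natAbs h1
        rw [Int.natAbs_mul] at this
        have e1 : (1 + (A : ℤ)).natAbs = A + 1 := by omega
        have e2 : (1 + (A : ℤ) ^ f).natAbs = A ^ f + 1 := by
          rw [← Nat.cast_pow]; omega
        rw [← e1, ← e2, this]
      rw [h3] at h2
      refine Nat.Coprime.dvd_of_dvd_mul_right (Nat.coprime_of_dvd fun p hp h5 h6 => ?_) h2
      obtain ⟨h7, h8⟩ := hlev p hp (hp2 p h5) (h5.trans hUB)
      have h9 := (ZMod.intCast_zmod_eq_zero_iff_dvd _ p).2 (Int.natCast_dvd.2 h6)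
      push_cast at h9
      simp only [dep_neg h7, neg_neg, one_pow, sum_const, card_range, nsmul_eq_mul,
        mul_one] at h9
      have := Nat.le_of_dvd hf1 ((ZMod.natCast_eq_zero_iff f p).1 h9)
      omega
    · by_cases hU1 : U = 1
      · rw [hU1]; exact one_dvd _
      exfalso
      obtain ⟨p, hp, h5⟩ := Nat.exists_prime_and_dvd hU1
      obtain ⟨h7, -⟩ := hlev p hp (hp2 p h5) (h5.trans hUB)
      have h9 := congrArg (Nat.cast : ℕ → ZMod p) hpow
      push_cast at h9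
      rw [dep_neg h7, dep_neg (h5.trans hUB)] at h9
      have h10 : ((2 : ℕ) : ZMod p) = 0 := by
        push_cast
        rcases Nat.even_or_odd e with h1 | h1 <;> rcases Nat.even_or_odd f with h2 | h2
        · exact absurd ⟨h1, h2⟩ hee
        · rw [h1.neg_one_pow, h2.neg_one_pow] at h9; linear_combination h9
        · rw [h1.neg_one_pow, h2.neg_one_pow] at h9; linear_combination -h9
        · exact absurd ⟨h1, h2⟩ hoo
      exact hp2 p h5
        ((Nat.prime_dvd_prime_iff_eq hp Nat.prime_two).1 ((ZMod.natCast_eq_zero_iff 2 p).1 h10))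
  obtain ⟨k, hk⟩ := hUA
  rcases ht with rfl | rfl
  · have := Nat.le_of_dvd (by omega) (Dvd.intro _ hk.symm)
    simp only [pow_zero, one_mul] at hB; omega
  · have h1 : Odd A := hodd (Nat.odd_iff.2 (by omega))
    have h2 : Even (U * k) := hk ▸ h1.add_one
    obtain ⟨j, rfl⟩ := (Nat.even_mul.1 h2).resolve_left (Nat.not_even_iff_odd.2 hU)
    rcases Nat.eq_zero_or_pos j with rfl | hj
    · simp at hk
    · have : U * 1 ≤ U * j := Nat.mul_le_mul_left _ hj
      rw [mul_add] at hk; omega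

theorem dep_lt (hLEV : S_LEV) (n x y a l a' l' : ℕ) (hn : 1 ≤ n) (hx : 2 ≤ x) (hxy : x < y)
    (hH : Hy (n + 1) x y) (ha : a' ≤ 2 ^ n) (h : x ^ a * y ^ l = x ^ a' * y ^ l') :
    ¬ l' < l := fun hl => by
  obtain ⟨e, rfl⟩ := Nat.exists_eq_add_of_lt hl
  have hy : 0 < y ^ l' := by have : 0 < y := by omega
                             positivity
  have h1 : x ^ a * y ^ (e + 1) = x ^ a' :=
    Nat.eq_of_mul_eq_mul_right hy (by rw [← h]; ring)
  have h2 : a ≤ a' := (Nat.pow_dvd_pow_iff_le_right (by omega)).1 (Dvd.intro _ h1)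
  obtain ⟨f, rfl⟩ := Nat.exists_eq_add_of_le h2
  have hx0 : 0 < x ^ a := by have : 0 < x := by omega
                             positivity
  exact dep_core hLEV n x y hn hx hxy hH (e + 1) f (by omega) (by omega)
    (Nat.eq_of_mul_eq_mul_left hx0 (by rw [h1, pow_add]))

theorem p_DEP (hLEV : S_LEV) :
    S_DEP := by
  intro n x y a l a' l' hn hx hxy hH ha ha' h
  have h1 := dep_lt hLEV n x y a l a' l' hn hx hxy hH ha' h
  have h2 := dep_lt hLEV n x y a' l' a l hn hx hxy hH ha h.symm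
  obtain rfl : l = l' := by omega
  have hy : 0 < y ^ l := by have : 0 < y := by omega
                            positivity
  exact ⟨Nat.pow_right_injective hx (Nat.eq_of_mul_eq_mul_right hy h), rfl⟩

end Pool.Agent.P.MP_b2ceab_nt.XE
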