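import Pool.Agent.P.MP_b2ceab_nt.XE.Iface

/-! Step FIN. -/

set_option autoImplicit false
set_option linter.unusedSectionVars false

namespace Pool.Agent.P.MP_b2ceab_nt.XE

open Finset Polynomial

theorem fin_two {n0 x y : ℕ} (hn : 1 ≤ n0) (hx : 0 < x) (hy : 0 < y) (hne : y ≠ x)
    (h : Hy n0 x y) : 2 ≤ x := by
  by_contra c
  obtain rfl : x = 1 := by omega
  have y2 : 2 ^ 2 ≤ y ^ 2 := Nat.pow_le_pow_left (by omega) 2
  obtain ⟨p, h1, hp⟩ := Nat.exists_infinite_primes (y ^ 2)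
  have := (h 1 le_rfl hn p hp).1 (by simp)
  have := Int.le_of_dvd (by
    have : (4 : ℤ) ≤ (y : ℤ) ^ 2 := by exact_mod_cast y2
    simp only [pow_one]; omega) this
  have : ((y : ℤ)) ^ 2 ≤ p := by exact_mod_cast h1
  simp only [pow_one] at *
  omega

theorem p_FIN (hLOW : S_LOW) (hFIB : S_FIB) :
    S_FIN := by
  classical
  intro ε hε
  obtain ⟨n0, C, hn, hC, H⟩ := hLOW (ε / 2) (by positivity)
  obtain ⟨C', hC', H'⟩ := hFIB (ε / 2) (by positivity)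
  refine ⟨n0, C + C' * C, fun X => ?_⟩
  set L := (Icc 2 X).filter fun x => ∃ y, x < y ∧ Hy n0 x y with hL
  set U := (Icc 2 X).filter fun x => ∃ y ∈ L, Hy 1 x y with hU
  have h1 := H X L fun x hx => by
    obtain ⟨a, b⟩ := mem_filter.1 hx
    exact ⟨(mem_Icc.1 a).1, (mem_Icc.1 a).2, b⟩
  have h2 := H' X U L fun x hx => by
    obtain ⟨a, b⟩ := mem_filter.1 hx
    exact ⟨(mem_Icc.1 a).1, (mem_Icc.1 a).2, b⟩
  have s : {x : ℕ | 1 ≤ x ∧ x ≤ X ∧ ∃ y : ℕ, 0 < y ∧ y ≠ x ∧ Hy n0 x y} ⊆ ↑(L ∪ U) := by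
    rintro x ⟨a, b, y, c, d, e⟩
    have x2 := fin_two hn a c d e
    have y2 := fin_two hn c a d.symm e.symm
    rw [mem_coe, mem_union]
    rcases lt_or_gt_of_ne d with f | f
    · exact Or.inr (mem_filter.2 ⟨mem_Icc.2 ⟨x2, b⟩, y,
        mem_filter.2 ⟨mem_Icc.2 ⟨y2, f.le.trans b⟩, x, f, e.symm⟩, e.mono hn⟩)
    · exact Or.inl (mem_filter.2 ⟨mem_Icc.2 ⟨x2, b⟩, y, f, e⟩)
  have s2 := (Set.ncard_le_ncard s (finite_toSet _)).trans
    ((Set.ncard_coe_finset _).le.trans (card_union_le _ _))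
  refine le_trans (by exact_mod_cast s2 : _ ≤ (L.card : ℝ) + U.card) ?_
  rcases Nat.eq_zero_or_pos X with rfl | hX
  · simp [hL, hU, hε.ne']
  have X1 : (1 : ℝ) ≤ X := by exact_mod_cast hX
  have e : (X : ℝ) ^ ε = (X : ℝ) ^ (ε / 2) * (X : ℝ) ^ (ε / 2) := by
    rw [← Real.rpow_add (by positivity), add_halves]
  have a1 : (1 : ℝ) ≤ (X : ℝ) ^ (ε / 2) := Real.one_le_rpow X1 (by positivity)
  have a2 := mul_le_mul_of_nonneg_left h1 (show 0 ≤ C' * (X : ℝ) ^ (ε / 2) by positivity)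
  have a3 : C * (X : ℝ) ^ (ε / 2) * 1 ≤ C * (X : ℝ) ^ (ε / 2) * (X : ℝ) ^ (ε / 2) :=
    mul_le_mul_of_nonneg_left a1 (by positivity)
  rw [e]
  nlinarith

end Pool.Agent.P.MP_b2ceab_nt.XE
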