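import Pool.Agent.P.MP_b2ceab_nt.XE.Iface

/-! Step GAP. -/

set_option autoImplicit false
set_option linter.unusedSectionVars false

namespace Pool.Agent.P.MP_b2ceab_nt.XE

open Finset Polynomial

theorem gap_cnt {ι : Type} [Fintype ι] (J : ℕ) (T : Finset (ι → ℕ))
    (h : ∀ f ∈ T, ∑ i, f i ≤ J) : T.card ≤ 2 ^ (J + Fintype.card ι) := by
  classical
  have h1 : T ⊆ Fintype.piFinset fun _ => range (J + 1) := fun f hf =>
    Fintype.mem_piFinset.2 fun i => mem_range.2 (Nat.lt_succ_of_le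
      ((single_le_sum (f := f) (fun _ _ => Nat.zero_le _) (mem_univ i)).trans (h f hf)))
  have h2 : (T.card : ℝ) * (1 / 2) ^ J ≤ 2 ^ Fintype.card ι := by
    calc (T.card : ℝ) * (1 / 2) ^ J = ∑ _f ∈ T, (1 / 2 : ℝ) ^ J := by simp
      _ ≤ ∑ f ∈ T, ∏ i, (1 / 2 : ℝ) ^ f i := sum_le_sum fun f hf => by
          rw [prod_pow_eq_pow_sum]
          exact pow_le_pow_of_le_one (by norm_num) (by norm_num) (h f hf)
      _ ≤ _ := sum_le_sum_of_subset_of_nonneg h1 fun _ _ _ => by positivity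
      _ = ∏ _i : ι, ∑ k ∈ range (J + 1), (1 / 2 : ℝ) ^ k :=
          (prod_univ_sum (fun _ : ι => range (J + 1)) fun _ k => (1 / 2 : ℝ) ^ k).symm
      _ ≤ ∏ _i : ι, (2 : ℝ) := prod_le_prod (fun _ _ => by positivity) fun _ _ =>
          sum_geometric_two_le _
      _ = _ := by simp
  rw [one_div, inv_pow, ← div_eq_mul_inv, div_le_iff₀ (by positivity), ← pow_add, add_comm] at h2
  exact_mod_cast h2

theorem gap_one {K Y y q : ℕ} (P : Finset ℕ) (hP : ∀ p ∈ P, p.Prime) (hK : 1 ≤ K) (hY : 2 ≤ Y)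
    (h1 : Y ≤ y) (h2 : y < Y ^ 2) (h3 : q ∣ y ^ K - 1) (h4 : y ^ 3 ≤ q) (h5 : q.primeFactors ⊆ P)
    (t : ℕ → ℕ) (ht : ∀ p, t p = Nat.log (p ^ P.card) Y + 1) :
    ∏ p ∈ P, p ^ (t p * (q.factorization p / t p)) ∣ q ∧
      y < ∏ p ∈ P, p ^ (t p * (q.factorization p / t p)) ∧
      ∑ p ∈ P, q.factorization p / t p ≤ 2 * K * P.card := by
  have hy3 : 2 ^ 3 ≤ y ^ 3 := Nat.pow_le_pow_left (by omega) 3
  have hq : q ≠ 0 := by omega
  have e1 : ∏ p ∈ P, p ^ q.factorization p = q := by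
    conv_rhs => rw [← Nat.prod_factorization_pow_eq_self hq]
    exact (Finsupp.prod_of_support_subset _ h5 _ fun _ _ => pow_zero _).symm
  have hs : P.card ≠ 0 := fun h => by
    rw [card_eq_zero.1 h, prod_empty] at e1; omega
  have e2 : (∏ p ∈ P, p ^ (t p * (q.factorization p / t p))) *
      ∏ p ∈ P, p ^ (q.factorization p % t p) = q := by
    rw [← prod_mul_distrib]
    simpa only [← pow_add, Nat.div_add_mod] using e1
  have e3 : ∏ p ∈ P, p ^ (q.factorization p % t p) ≤ Y := by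
    rw [← Nat.pow_le_pow_iff_left hs, ← prod_pow]
    refine prod_le_pow_card _ _ _ fun p hp => ?_
    rw [← pow_mul, mul_comm, pow_mul]
    refine le_trans (Nat.pow_le_pow_right (pow_pos (hP p hp).pos _) ?_)
      (Nat.pow_log_le_self (p ^ P.card) (by omega))
    have := Nat.mod_lt (q.factorization p) (show 0 < t p by rw [ht]; omega)
    rw [ht] at this ⊢
    omega
  set Q := ∏ p ∈ P, p ^ (t p * (q.factorization p / t p)) with hQ
  have e4 : Q ∣ q := ⟨_, e2.symm⟩
  have e5 : Y ^ 2 * Y ≤ Q * Y := by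
    rw [← pow_succ]
    exact (Nat.pow_le_pow_left h1 3).trans (h4.trans (e2.ge.trans (Nat.mul_le_mul_left _ e3)))
  refine ⟨e4, h2.trans_le (Nat.le_of_mul_le_mul_right e5 (by omega)), ?_⟩
  have e6 : 1 < y ^ K := Nat.one_lt_pow (by omega) (by omega)
  have e7 : Q ≤ (Y ^ 2) ^ K := ((Nat.le_of_dvd (by omega) (e4.trans h3)).trans
    (Nat.sub_le _ _)).trans (Nat.pow_le_pow_left h2.le _)
  rw [← Nat.pow_le_pow_iff_right (show 1 < Y by omega), ← prod_pow_eq_pow_sum, pow_mul, pow_mul]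
  refine le_trans ?_ (Nat.pow_le_pow_left e7 _)
  rw [hQ, ← prod_pow]
  refine prod_le_prod' fun p hp => ?_
  rw [← pow_mul, mul_comm _ P.card, pow_mul, pow_mul]
  refine Nat.pow_le_pow_left ?_ _
  rw [ht]
  exact (Nat.lt_pow_succ_log_self (Nat.one_lt_pow hs (hP p hp).one_lt) Y).le

theorem p_GAP (hROOT : S_ROOT) :
    S_GAP := by
  classical
  intro K m Y hK hm hY S hS
  choose! q ho hd hl hp using fun y hy => (hS y hy).2.2
  set P := m.primeFactors with hP
  let t : ℕ → ℕ := fun p => Nat.log (p ^ P.card) Y + 1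
  have hsub : ∀ y ∈ S, (q y).primeFactors ⊆ P := fun y hy p h =>
    Nat.mem_primeFactors.2 ⟨Nat.prime_of_mem_primeFactors h,
      hp y hy p (Nat.prime_of_mem_primeFactors h) (Nat.dvd_of_mem_primeFactors h), by omega⟩
  have h1 := fun y hy => gap_one P (fun p h => Nat.prime_of_mem_primeFactors h) hK hY
    (hS y hy).1 (hS y hy).2.1 (hd y hy) (hl y hy) (hsub y hy) t fun _ => rfl
  let j : ℕ → P → ℕ := fun y p => (q y).factorization p / t p
  have h2 : (S.image j).card ≤ 2 ^ (2 * K * P.card + P.card) := by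
    refine (gap_cnt (2 * K * P.card) _ fun f hf => ?_).trans_eq (by rw [Fintype.card_coe])
    obtain ⟨y, hy, rfl⟩ := mem_image.1 hf
    exact (sum_coe_sort P fun p => (q y).factorization p / t p).trans_le (h1 y hy).2.2
  have h3 : ∀ f ∈ S.image j, (S.filter fun y => j y = f).card ≤ K ^ P.card := by
    intro f hf
    obtain ⟨z, hz, rfl⟩ := mem_image.1 hf
    have a := (h1 z hz).1
    refine (hROOT K _ hK (Odd.of_dvd_nat (ho z hz) a) _ fun y hy => ?_).trans
      (Nat.pow_le_pow_right hK (card_le_card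
        ((Nat.primeFactors_mono a (ho z hz).pos.ne').trans (hsub z hz))))
    obtain ⟨b, c⟩ := mem_filter.1 hy
    have e : ∏ p ∈ P, p ^ (t p * ((q z).factorization p / t p)) =
        ∏ p ∈ P, p ^ (t p * ((q y).factorization p / t p)) :=
      prod_congr rfl fun p hp => by
        rw [show (q y).factorization p / t p = (q z).factorization p / t p from congrFun c ⟨p, hp⟩]
    rw [e]
    have d : 1 ≤ y ^ K := Nat.one_le_pow _ _ (by have := (hS y b).1; omega)
    exact ⟨(h1 y b).2.1, ((Nat.modEq_iff_dvd' d).2 ((h1 y b).1.trans (hd y b))).symm⟩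
  refine (card_le_mul_card_image S _ h3).trans ((Nat.mul_le_mul_left _ h2).trans_eq ?_)
  rw [mul_pow, ← pow_mul, mul_comm, add_mul, one_mul]

end Pool.Agent.P.MP_b2ceab_nt.XE
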