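import Pool.Agent.P.MP_b2ceab_nt.XE.Iface

/-! Step GOOD. -/

set_option autoImplicit false
set_option linter.unusedSectionVars false

namespace Pool.Agent.P.MP_b2ceab_nt.XE

open Finset Polynomial

theorem p_GOOD (hCNT : S_CNT) :
    S_GOOD := by
  classical
  intro n1 c δ hc hδ
  obtain ⟨C, hC, H⟩ := hCNT (δ / 2 ^ n1) (by positivity)
  refine ⟨c + n1 * (C * (2 * c : ℝ) ^ (δ / 2 ^ n1)), by positivity, fun X S h => ?_⟩
  rcases S.eq_empty_or_nonempty with e | ⟨x0, hx0⟩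
  · rw [e]; simp; positivity
  have hX : 1 ≤ X := (h x0 hx0).1.trans (h x0 hx0).2.1
  have X1 : (1 : ℝ) ≤ (X : ℝ) ^ δ := Real.one_le_rpow (by exact_mod_cast hX) hδ.le
  have hY : 1 ≤ X ^ 2 ^ n1 := Nat.one_le_pow _ _ hX
  let F : ℕ → Finset ℕ := fun n => S.filter fun x => ∀ p : ℕ, p.Prime → p ∣ x ^ 2 ^ n + 1 → p ∣ c
  have k : ∀ n ∈ Icc 1 n1, ((F n).card : ℝ) ≤ C * (2 * c : ℝ) ^ (δ / 2 ^ n1) * (X : ℝ) ^ δ :=
    fun n hn => by
    have inj : Set.InjOn (fun x => x ^ 2 ^ n + 1) (F n) := fun u _ v _ e =>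
      Nat.pow_left_injective (n := 2 ^ n) (by positivity) (by simpa using e)
    have := H c (2 * c * X ^ 2 ^ n1) hc (by nlinarith) ((F n).image fun x => x ^ 2 ^ n + 1)
      fun u hu => by
        obtain ⟨x, hx, rfl⟩ := mem_image.1 hu
        obtain ⟨a3, a4⟩ := mem_filter.1 hx
        refine ⟨by omega, ?_, a4⟩
        have : x ^ 2 ^ n ≤ X ^ 2 ^ n1 := (Nat.pow_le_pow_left (h x a3).2.1 _).trans
          (Nat.pow_le_pow_right hX (Nat.pow_le_pow_right two_pos (mem_Icc.1 hn).2))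
        nlinarith
    rw [card_image_of_injOn inj] at this
    push_cast at this
    rwa [Real.mul_rpow (by positivity) (by positivity), ← Real.rpow_natCast (X : ℝ),
      ← Real.rpow_mul (by positivity), show ((2 ^ n1 : ℕ) : ℝ) * (δ / 2 ^ n1) = δ by
        push_cast; field_simp, ← mul_assoc] at this
  have s : S ⊆ Icc 1 c ∪ (Icc 1 n1).biUnion F := fun x hx => by
    rcases (h x hx).2.2 with a | ⟨n, a, b, d⟩
    · exact mem_union_left _ (mem_Icc.2 ⟨(h x hx).1, a⟩)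
    · exact mem_union_right _ (mem_biUnion.2 ⟨n, mem_Icc.2 ⟨a, b⟩, mem_filter.2 ⟨hx, d⟩⟩)
  have s2 := (card_le_card s).trans ((card_union_le _ _).trans (Nat.add_le_add_left card_biUnion_le _))
  have s3 := sum_le_card_nsmul _ _ _ k
  rw [Nat.card_Icc, Nat.add_sub_cancel] at s2 s3
  rw [nsmul_eq_mul] at s3
  have s4 : (S.card : ℝ) ≤ c + ∑ n ∈ Icc 1 n1, ((F n).card : ℝ) := by exact_mod_cast s2
  have : (0 : ℝ) ≤ c := by positivity
  nlinarith

end Pool.Agent.P.MP_b2ceab_nt.XE
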