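import Pool.Agent.P.MP_b2ceab_nt.XE.Iface

/-! Step LOW. -/

set_option autoImplicit false
set_option linter.unusedSectionVars false

namespace Pool.Agent.P.MP_b2ceab_nt.XE

open Finset Polynomial

theorem low_root {m X E : ℕ} (hE : 1 ≤ E) (h : m ^ E ≤ X ^ 2) :
    m ≤ ⌊(X : ℝ) ^ ((2 : ℝ) * (E : ℝ)⁻¹)⌋₊ := by
  refine Nat.le_floor ?_
  have h1 : ((m : ℝ) ^ E) ≤ (X : ℝ) ^ 2 := by exact_mod_cast h
  have h2 := Real.rpow_le_rpow (by positivity) h1 (z := (E : ℝ)⁻¹) (by positivity)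
  rw [Real.pow_rpow_inv_natCast (by positivity) (by omega)] at h2
  rw [Real.rpow_mul (by positivity), Real.rpow_two]
  exact h2

theorem low_dvd {n0 x y p : ℕ} (h : Hy n0 x y) (hn : 1 ≤ n0) (hx : 2 ≤ x) (hy : 2 ≤ y)
    (hp : p.Prime) (hd : p ∣ y ^ 2 - 1) : p ∣ x ^ 2 - 1 := by
  have a : 1 ≤ x ^ 2 := Nat.one_le_pow _ _ (by omega)
  have b : 1 ≤ y ^ 2 := Nat.one_le_pow _ _ (by omega)
  have h1 := (h 1 le_rfl hn p hp).2 (by
    have := Int.natCast_dvd_natCast.2 hd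
    rw [Nat.cast_sub b] at this
    simpa using this)
  refine Int.natCast_dvd_natCast.1 ?_
  rw [Nat.cast_sub a]
  simpa using h1

theorem p_LOW (hPAIR : S_PAIR) (hCERT : S_CERT) (hFIB : S_FIB) (hGOOD : S_GOOD) :
    S_LOW := by
  classical
  intro ε hε
  set δ : ℝ := min 1 (ε / 4) with hδ
  have d0 : 0 < δ := lt_min one_pos (by positivity)
  have d1 : δ ≤ 1 := min_le_left _ _
  have d2 : δ ≤ ε / 4 := min_le_right _ _
  set E : ℕ := ⌈8 / ε⌉₊ + 1 with hE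
  have E1 : 1 ≤ E := by omega
  have E2 : (E : ℝ)⁻¹ ≤ ε / 8 := by
    have : 8 / ε ≤ (E : ℝ) := (Nat.le_ceil _).trans (by rw [hE]; push_cast; linarith)
    rw [← inv_div]
    exact inv_anti₀ (by positivity) this
  obtain ⟨n0, K, c, h0, hK, hc, hP⟩ := hPAIR E E1
  obtain ⟨C1, c1, H1⟩ := hCERT K δ hK d0
  obtain ⟨C2, c2, H2⟩ := hFIB δ d0
  obtain ⟨C3, c3, H3⟩ := hGOOD n0 c ε hc hε
  refine ⟨n0, C3 + C2 * C1, h0, by positivity, fun X S hS => ?_⟩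
  rcases Nat.eq_zero_or_pos X with rfl | hX
  · have : S = ∅ := eq_empty_of_forall_notMem fun x hx => by have := hS x hx; omega
    rw [this, card_empty, Nat.cast_zero]; positivity
  have X1 : (1 : ℝ) ≤ X := by exact_mod_cast hX
  choose! h2 hX' y hy hH using hS
  have A1 := H3 X (S.filter (Good n0 c)) fun x hx => by
    obtain ⟨a, b⟩ := mem_filter.1 hx
    exact ⟨by have := h2 x a; omega, hX' x a, b⟩
  set S2 := S.filter fun x => ¬ Good n0 c x with hS2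
  have A2 := H2 X S2 (S2.image y) fun x hx => by
    have a := (mem_filter.1 hx).1
    exact ⟨h2 x a, hX' x a, y x, mem_image_of_mem _ hx, (hH x a).mono h0⟩
  have A3 := H1 X ⌊(X : ℝ) ^ ((2 : ℝ) * (E : ℝ)⁻¹)⌋₊ hX (S2.image y) fun z hz => by
    obtain ⟨x, hx, rfl⟩ := mem_image.1 hz
    obtain ⟨a, b⟩ := mem_filter.1 hx
    have x2 := h2 x a
    have y2 : 2 ≤ y x := by have := hy x a; omega
    have q : x ^ 2 ≤ X ^ 2 := Nat.pow_le_pow_left (hX' x a) 2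
    obtain ⟨m, m1, m2, m3⟩ := (hP x (y x) x2 (hy x a) (hH x a)).resolve_left b
    refine ⟨y2, ⟨x ^ 2 - 1, ?_, by omega, fun p hp hd => low_dvd (hH x a) h0 x2 y2 hp hd⟩,
      m, m1, low_root E1 (m2.trans q), m3⟩
    have : 2 ^ 2 ≤ x ^ 2 := Nat.pow_le_pow_left x2 2
    omega
  have A4 : (⌊(X : ℝ) ^ ((2 : ℝ) * (E : ℝ)⁻¹)⌋₊ : ℝ) ^ (1 + δ) ≤ (X : ℝ) ^ (ε / 2) := by
    refine (Real.rpow_le_rpow (by positivity) (Nat.floor_le (by positivity))
      (by positivity)).trans ?_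
    rw [← Real.rpow_mul (by positivity)]
    refine Real.rpow_le_rpow_of_exponent_le X1 ?_
    have : (0 : ℝ) ≤ (E : ℝ)⁻¹ := by positivity
    nlinarith
  have A5 : (X : ℝ) ^ δ * ((X : ℝ) ^ (ε / 2) * (X : ℝ) ^ δ) ≤ (X : ℝ) ^ ε := by
    rw [← Real.rpow_add (by positivity), ← Real.rpow_add (by positivity)]
    exact Real.rpow_le_rpow_of_exponent_le X1 (by linarith)
  have A6 : (S2.card : ℝ) ≤ C2 * C1 * (X : ℝ) ^ ε :=
    calc (S2.card : ℝ) ≤ C2 * (X : ℝ) ^ δ * (C1 * (X : ℝ) ^ (ε / 2) * (X : ℝ) ^ δ) := by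
          refine A2.trans (mul_le_mul_of_nonneg_left (A3.trans ?_) (by positivity))
          gcongr
      _ = C2 * C1 * ((X : ℝ) ^ δ * ((X : ℝ) ^ (ε / 2) * (X : ℝ) ^ δ)) := by ring
      _ ≤ _ := by gcongr
  have A7 : (S.card : ℝ) = (S.filter (Good n0 c)).card + S2.card := by
    rw [hS2]; exact_mod_cast (card_filter_add_card_filter_not _).symm
  rw [A7, add_mul]
  exact add_le_add A1 A6

end Pool.Agent.P.MP_b2ceab_nt.XE
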