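import Pool.Agent.P.MP_b2ceab_nt.XE.Iface

/-! Step OM. -/

set_option autoImplicit false
set_option linter.unusedSectionVars false

namespace Pool.Agent.P.MP_b2ceab_nt.XE

open Finset Polynomial

theorem p_OM :
    S_OM := by
  intro n ε hε
  obtain ⟨P, hP⟩ := Filter.eventually_atTop.1
    (((tendsto_rpow_atTop hε).comp tendsto_natCast_atTop_atTop).eventually_ge_atTop (n : ℝ))
  have h1 : (1 : ℝ) ≤ max 1 (n : ℝ) := le_max_left _ _
  refine ⟨(max 1 (n : ℝ)) ^ P, by positivity, fun N hN => ?_⟩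
  have h2 : (∏ p ∈ N.primeFactors, if p < P then max 1 (n : ℝ) else 1) ≤ (max 1 (n : ℝ)) ^ P := by
    rw [prod_ite, prod_const_one, mul_one, prod_const]
    refine pow_le_pow_right₀ h1 ?_
    exact (card_le_card fun p hp => mem_range.2 (mem_filter.1 hp).2).trans (card_range P).le
  have h4 : ((∏ p ∈ N.primeFactors, p : ℕ) : ℝ) ^ ε ≤ (N : ℝ) ^ ε :=
    Real.rpow_le_rpow (by positivity)
      (by exact_mod_cast Nat.le_of_dvd hN (Nat.prod_primeFactors_dvd N)) hε.le
  refine le_trans ?_ (mul_le_mul h2 h4 (by positivity) (by positivity))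
  rw [Nat.cast_prod, ← Real.finsetProd_rpow _ _ fun p _ => Nat.cast_nonneg p,
    ← prod_mul_distrib, ← prod_const]
  refine prod_le_prod (fun _ _ => Nat.cast_nonneg n) fun p hp => ?_
  split_ifs with h
  · have h3 : (1 : ℝ) ≤ (p : ℝ) ^ ε :=
      Real.one_le_rpow (by exact_mod_cast (Nat.prime_of_mem_primeFactors hp).pos) hε.le
    exact (le_max_right _ _).trans (le_mul_of_one_le_right (by positivity) h3)
  · rw [one_mul]
    exact hP p (not_lt.1 h)

end Pool.Agent.P.MP_b2ceab_nt.XE
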