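import Pool.Agent.P.MP_b2ceab_nt.XE.Iface

/-! Step PAIR. -/

set_option autoImplicit false
set_option linter.unusedSectionVars false

namespace Pool.Agent.P.MP_b2ceab_nt.XE

open Finset Polynomial

theorem pair_mono {n c n' c' x : ℕ} (h : Good n c x) (hn : n ≤ n') (hc : c ∣ c') (h0 : 0 < c') :
    Good n' c' x := by
  rcases h with h | ⟨m, h1, h2, h3⟩
  · exact Or.inl (h.trans (Nat.le_of_dvd h0 hc))
  · exact Or.inr ⟨m, h1, h2.trans hn, fun p hp hd => (h3 p hp hd).trans hc⟩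

theorem pair_fin {ι : Type} (Q : ι → ℕ → ℕ → Prop)
    (hQ : ∀ i n c n' c', n ≤ n' → c ∣ c' → 0 < c' → Q i n c → Q i n' c')
    (h : ∀ i, ∃ n c, 0 < c ∧ Q i n c) (T : Finset ι) : ∃ n c, 0 < c ∧ ∀ i ∈ T, Q i n c := by
  classical
  induction T using Finset.induction_on with
  | empty => exact ⟨0, 1, one_pos, by simp⟩
  | insert a T _ ih =>
    obtain ⟨n, c, h0, h1⟩ := ih
    obtain ⟨n', c', h0', h1'⟩ := h a
    refine ⟨max n n', c * c', Nat.mul_pos h0 h0', fun i hi => ?_⟩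
    rcases mem_insert.1 hi with rfl | hi
    · exact hQ _ _ _ _ _ (le_max_right _ _) (Dvd.intro_left _ rfl) (Nat.mul_pos h0 h0') h1'
    · exact hQ _ _ _ _ _ (le_max_left _ _) (Dvd.intro _ rfl) (Nat.mul_pos h0 h0') (h1 i hi)

theorem pair_box (hCURVE : S_CURVE) (A B : ℕ) (M : ℤ) : ∃ n c, 0 < c ∧
    ∀ g : Fin A × Fin B → ℤ, (∀ t, |g t| ≤ M) → g ≠ 0 → ∀ x y : ℕ, 2 ≤ x → x < y →
      Hy (n + 1) x y → tay g x y 0 = 0 → Good n c x := by
  obtain ⟨n, c, h0, h1⟩ := pair_fin (fun (g : Fin A × Fin B → ℤ) n c => g ≠ 0 → ∀ x y : ℕ,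
      2 ≤ x → x < y → Hy (n + 1) x y → tay g x y 0 = 0 → Good n c x)
    (fun g n c n' c' hn hc h0 h hg x y a b e f =>
      pair_mono (h hg x y a b (e.mono (by omega)) f) hn hc h0)
    (fun g => by
      by_cases hg : g = 0
      · exact ⟨0, 1, one_pos, fun h => absurd hg h⟩
      · obtain ⟨n, c, h0, h1⟩ := hCURVE A B g hg
        exact ⟨n, c, h0, fun _ => h1⟩)
    (Fintype.piFinset fun _ => Icc (-M) M)
  exact ⟨n, c, h0, fun g hg => h1 g (Fintype.mem_piFinset.2 fun t => mem_Icc.2 (abs_le.1 (hg t)))⟩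

theorem p_PAIR (hV1 : S_V1) (hV2 : S_V2) (hV3 : S_V3) (hZERO : S_ZERO) (hCURVE : S_CURVE) :
    S_PAIR := by
  intro E hE
  have hD : 1 ≤ 128 * E * 2 ^ (512 * E) := Nat.mul_pos (by omega) (by positivity)
  obtain ⟨l0, x0, hz⟩ := hZERO _ hD
  obtain ⟨n1, c, hc, hb⟩ := pair_fin (fun (l : ℕ) n c =>
      ∀ g : Fin (l * (128 * E * 2 ^ (512 * E))) × Fin (128 * E * 2 ^ (512 * E)) → ℤ,
        (∀ t, |g t| ≤ 2 ^ (6 * (l * (128 * E * 2 ^ (512 * E))))) → g ≠ 0 → ∀ x y : ℕ, 2 ≤ x →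
          x < y → Hy (n + 1) x y → tay g x y 0 = 0 → Good n c x)
    (fun l n c n' c' hn hc h0 h g hg hg' x y a b e f =>
      pair_mono (h g hg hg' x y a b (e.mono (by omega)) f) hn hc h0)
    (fun l => pair_box hCURVE _ _ _) (range l0)
  have hc' : 0 < c * (512 + 2 ^ (512 * E) + x0) := Nat.mul_pos hc (by positivity)
  refine ⟨max (512 * E + 1) (n1 + 1), 2 * 2 ^ (512 * E), c * (512 + 2 ^ (512 * E) + x0),
    by omega, Nat.mul_pos (by omega) (by positivity), hc', fun x y hx hxy hH => ?_⟩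
  by_cases h1 : x ≤ c * (512 + 2 ^ (512 * E) + x0)
  · exact Or.inl (Or.inl h1)
  have h2 : 512 + 2 ^ (512 * E) + x0 < x :=
    lt_of_le_of_lt (Nat.le_mul_of_pos_left _ hc) (not_le.1 h1)
  obtain ⟨h5, h6, h7⟩ : 512 ≤ x ∧ 2 ^ (512 * E) ≤ x ∧ x0 ≤ x := by
    generalize 2 ^ (512 * E) = w at h2
    omega
  by_cases h3 : y ^ 3 ≤ hvp E (512 * E) x y
  · exact Or.inr (hV2 E _ x y hx hxy h3)
  have hH1 : Hy (512 * E + 1) x y := hH.mono (le_max_left _ _)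
  obtain ⟨g, g0, g1, g2⟩ := hV1 E (512 * E) (128 * E) x y hE (le_of_eq (by ring)) (by omega) hx
    hxy hH1
  have g3 := hV3 E (512 * E) (128 * E) x y (by omega) h5 h6 hxy hH1
    (not_le.1 h3) g g1 g2
  by_cases h4 : l0 ≤ Nat.log x y
  · exact absurd g3 (hz _ x y h4 h7 (Nat.pow_log_le_self x (by omega)) g g0 g1)
  · exact Or.inl (pair_mono (hb _ (mem_range.2 (not_le.1 h4)) g g1 g0 x y hx hxy
      (hH.mono (le_max_right _ _)) (g3 0 (Nat.zero_le _))) (by omega) (Dvd.intro _ rfl) hc')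

end Pool.Agent.P.MP_b2ceab_nt.XE
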