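import Pool.Agent.P.MP_b2ceab_nt.XE.Iface

/-! Step ROOT. -/

set_option autoImplicit false
set_option linter.unusedSectionVars false

namespace Pool.Agent.P.MP_b2ceab_nt.XE

open Finset Polynomial

theorem p_ROOT :
    S_ROOT := by
  intro K q hK
  induction q using Nat.recOnPosPrimePosCoprime with
  | zero => exact fun h => absurd h (by decide)
  | one =>
    intro _ S hS
    simpa using card_le_one.2 fun a ha b hb => by have := (hS a ha).1; have := (hS b hb).1; omega
  | prime_pow p e hp he =>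
    intro h S hS
    have : NeZero (p ^ e) := ⟨pow_ne_zero _ hp.ne_zero⟩
    have := ZMod.isCyclic_units_of_prime_pow p hp
      (h.ne_two_of_dvd_nat (dvd_pow_self p he.ne')) e
    rw [Nat.primeFactors_prime_pow he.ne' hp, card_singleton, pow_one]
    refine le_trans ?_ (card_image_le.trans (IsCyclic.card_pow_eq_one_le (α := (ZMod (p ^ e))ˣ) hK) :
      (image (fun u : (ZMod (p ^ e))ˣ => (u : ZMod (p ^ e)).val) _).card ≤ K)
    refine card_le_card fun y hy => ?_
    have h1 : (y : ZMod (p ^ e)) ^ K = 1 := by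
      exact_mod_cast (ZMod.natCast_eq_natCast_iff _ _ _).2 (hS y hy).2
    refine mem_image.2 ⟨Units.ofPowEqOne _ K h1 (by omega), ?_, ZMod.val_cast_of_lt (hS y hy).1⟩
    simp
  | coprime a b ha hb hab iha ihb =>
    intro h S hS
    rw [hab.primeFactors_mul, card_union_of_disjoint hab.disjoint_primeFactors, pow_add]
    have key : ∀ c, 1 < c → c ∣ a * b → ∀ z ∈ S.image (· % c), z < c ∧ z ^ K ≡ 1 [MOD c] :=
      fun c hc hd z hz => by
        obtain ⟨y, hy, rfl⟩ := mem_image.1 hz
        exact ⟨Nat.mod_lt _ (by omega), ((Nat.mod_modEq y c).pow K).trans ((hS y hy).2.of_dvd hd)⟩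
    refine le_trans ?_ (Nat.mul_le_mul
      (iha (h.of_dvd_nat (dvd_mul_right a b)) _ (key a ha (dvd_mul_right a b)))
      (ihb (h.of_dvd_nat (dvd_mul_left b a)) _ (key b hb (dvd_mul_left b a))))
    rw [← card_product]
    refine card_le_card_of_injOn (fun y => (y % a, y % b)) (fun y hy => mem_coe.2 (mem_product.2
      ⟨mem_image_of_mem _ hy, mem_image_of_mem _ hy⟩)) fun y hy z hz e => ?_
    exact Nat.ModEq.eq_of_lt_of_lt ((Nat.modEq_and_modEq_iff_modEq_mul hab).1 (Prod.mk.inj e))
      (hS y hy).1 (hS z hz).1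

end Pool.Agent.P.MP_b2ceab_nt.XE
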