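import Pool.Agent.P.MP_b2ceab_nt.XE.Iface

/-! Step SHIFT. -/

set_option autoImplicit false
set_option linter.unusedSectionVars false

namespace Pool.Agent.P.MP_b2ceab_nt.XE

open Finset Polynomial

theorem shift_pow (x z : ℤ) {A u : ℕ} (hu : u < A) (I : ℕ) :
    (u.choose I : ℤ) * x ^ (u - I) =
      ∑ j ∈ range A, (j.choose I : ℤ) * (x - z) ^ (j - I) * ((u.choose j : ℤ) * z ^ (u - j)) := by
  have h : (X + C x : ℤ[X]) ^ u =
      ∑ j ∈ range A, (X + C (x - z)) ^ j * C ((u.choose j : ℤ) * z ^ (u - j)) := by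
    rw [show (X + C x : ℤ[X]) = (X + C (x - z)) + C z by rw [C_sub]; ring, add_pow]
    refine (sum_congr rfl fun j _ => ?_).trans
      (sum_subset (range_subset_range.2 (show u + 1 ≤ A by omega)) fun j _ hj => ?_)
    · simp only [map_mul, map_pow, map_natCast]
      ring
    · rw [Nat.choose_eq_zero_of_lt (by simpa using hj)]
      simp
  have h2 := congrArg (fun P : ℤ[X] => P.coeff I) h
  simp only [finsetSum_coeff, coeff_mul_C, coeff_X_add_C_pow] at h2
  rw [mul_comm, h2]
  exact sum_congr rfl fun j _ => by ring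

theorem p_SHIFT :
    S_SHIFT := by
  intro A B g x z y p a c I hp hc h
  have e : tay g x y I = ∑ j ∈ range A, (j.choose I : ℤ) * (x - z) ^ (j - I) * tay g z y j := by
    simp only [tay, mul_sum]
    rw [sum_comm]
    refine sum_congr rfl fun t _ => ?_
    rw [mul_assoc (g t), shift_pow x z t.1.2 I, mul_sum, sum_mul]
    exact sum_congr rfl fun j _ => by ring
  rw [e, sum_mul]
  refine dvd_sum fun j _ => ?_
  rcases lt_or_ge j a with hj | hj
  · exact ((h j hj).mul_left _).mul_right _
  rcases lt_or_ge j I with hI | hI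
  · rw [Nat.choose_eq_zero_of_lt hI]; simp
  · refine (pow_dvd_pow p (show c ≤ (j - I) + I by omega)).trans ?_
    rw [pow_add]
    exact mul_dvd_mul (((pow_dvd_pow_of_dvd hp _).mul_left _).mul_right _) dvd_rfl

end Pool.Agent.P.MP_b2ceab_nt.XE
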