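import Pool.Agent.P.MP_b2ceab_nt.XE.Iface

/-! Step TORS. -/

set_option autoImplicit false
set_option linter.unusedSectionVars false

namespace Pool.Agent.P.MP_b2ceab_nt.XE

open Finset Polynomial

/-- The substitution along the curve. -/
noncomputable def tors_phi (k : ℕ) : ℤ[X][X] →+* ℤ[X] :=
  (evalRingHom X).comp (mapRingHom (eval₂RingHom (C : ℤ →+* ℤ[X]) (X ^ k)))

theorem tors_eval (k : ℕ) (y : ℤ) (F : ℤ[X][X]) :
    (tors_phi k F).eval y = F.evalEval (y ^ k) y :=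
  RingHom.congr_fun (f := (evalRingHom y).comp (tors_phi k)) (g := evalEvalRingHom (y ^ k) y)
    (by ext <;> simp [tors_phi]) F

theorem tors_aeval (k : ℕ) (z : ℂ) (ρ : ℤ[X]) : aeval z (tors_phi k (C ρ)) = aeval (z ^ k) ρ := by
  have : tors_phi k (C ρ) = ρ.comp (X ^ k) := by simp [tors_phi, comp]
  rw [this, aeval_comp, map_pow, aeval_X]

theorem p_TORS (hBEZ : S_BEZ) (hCOLL : S_COLL) :
    S_TORS := by
  intro F hF hd
  by_cases h : ∃ a l a' l' : ℕ, ¬ (a = a' ∧ l = l') ∧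
      F ∣ C (X ^ (2 * a)) * X ^ (2 * l) - C (X ^ (2 * a')) * X ^ (2 * l')
  · obtain ⟨a, l, a', l', h1, G, h2⟩ := h
    have h3 := (a + a').lt_two_pow_self
    refine ⟨a + a' + 1, 1, by omega, one_pos, Or.inl ⟨2 * a, 2 * l, 2 * a', 2 * l', by omega,
      by omega, by omega, fun x y e => ?_⟩⟩
    have := congrArg (evalEvalRingHom x y) h2
    rw [map_mul _ F, show evalEvalRingHom x y F = 0 from e, zero_mul] at this
    simpa [sub_eq_zero] using this
  have h1 : ∀ q : (ℕ × ℕ) × ℕ × ℕ, ∃ ρ : ℤ[X], ρ ≠ 0 ∧ (¬ (q.1.1 = q.2.1 ∧ q.1.2 = q.2.2) →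
      ∃ U V, C ρ = U * F + V * (C (X ^ (2 * q.1.1)) * X ^ (2 * q.1.2) -
        C (X ^ (2 * q.2.1)) * X ^ (2 * q.2.2))) := fun q => by
    by_cases e : q.1.1 = q.2.1 ∧ q.1.2 = q.2.2
    · exact ⟨1, one_ne_zero, fun e' => absurd e e'⟩
    · exact (hBEZ _ F _ hF hd fun e' => h ⟨_, _, _, _, e, e'⟩).imp fun ρ h => ⟨h.1, fun _ => h.2⟩
  choose ρ r0 r1 using h1
  let S : Finset (ℕ × ℕ) := F.support.biUnion fun l => (F.coeff l).support.image (·, l)
  have mS : ∀ a l, (F.coeff l).coeff a ≠ 0 → (a, l) ∈ S := fun a l e =>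
    mem_biUnion.2 ⟨l, mem_support_iff.2 fun e' => e (by rw [e', coeff_zero]),
      mem_image_of_mem _ (mem_support_iff.2 e)⟩
  have p0 : ∏ q ∈ S ×ˢ S, ρ q ≠ 0 := prod_ne_zero_iff.2 fun q _ => r0 q
  set m := (∏ q ∈ S ×ˢ S, ρ q).natDegree with hm
  have cy : cyclotomic (2 ^ (m + 1 + 1)) ℤ = X ^ 2 ^ (m + 1) + 1 := by
    rw [cyclotomic_prime_pow_eq_geom_sum Nat.prime_two]
    simp [sum_range_succ, add_comm]
  have N0 : 0 < 2 ^ (m + 1 + 1) := by positivity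
  have hζ := Complex.isPrimitiveRoot_exp _ N0.ne'
  generalize Complex.exp _ = ζ at hζ
  have z1 : aeval ζ (X ^ 2 ^ (m + 1) + 1 : ℤ[X]) = 0 := by
    rw [← cy, cyclotomic_eq_minpoly hζ N0, minpoly.aeval]
  have z2 : (ζ ^ 2) ^ 2 ^ (m + 1) = 1 := by rw [← pow_mul, ← pow_succ', hζ.pow_eq_one]
  have dg : (X ^ 2 ^ (m + 1) + 1 : ℤ[X]).natDegree = 2 ^ (m + 1) := by
    rw [← cy, natDegree_cyclotomic, Nat.totient_prime_pow_succ Nat.prime_two]
    simp
  have h2 : ∀ k : ℕ, ∃ c : ℤ, c ≠ 0 ∧ (Odd k →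
      ∃ U V, C c = U * (X ^ 2 ^ (m + 1) + 1) + V * tors_phi k F) := fun k => by
    by_cases e : Odd k
    swap
    · exact ⟨1, one_ne_zero, fun e' => absurd e' e⟩
    refine (hBEZ ℤ _ _ (cy ▸ (cyclotomic.irreducible N0).prime) (by rw [dg]; positivity)
      fun e' => ?_).imp fun c h => ⟨h.1, fun _ => h.2⟩
    obtain ⟨a, l, a', l', c1, c2, c3, c4⟩ := hCOLL F _ k hF.ne_zero (by positivity) e'
    obtain ⟨U, V, c5⟩ := r1 ((a, l), a', l') c3
    have c6 := congrArg (fun G => aeval ζ (tors_phi k G)) c5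
    have c7 := pow_eq_pow_of_modEq c4 z2
    have c8 : aeval ζ (tors_phi k (C (X ^ (2 * a)) * X ^ (2 * l) -
        C (X ^ (2 * a')) * X ^ (2 * l'))) = 0 := by
      simp only [map_sub, map_mul, tors_aeval, map_pow (tors_phi k) X]
      simp only [tors_phi, map_pow, aeval_X, RingHom.comp_apply, coe_mapRingHom, map_X,
        coe_evalRingHom, eval_X]
      linear_combination c7
    obtain ⟨W, c9⟩ := e'
    change tors_phi k F = _ at c9
    simp only [map_add, map_mul _ U, map_mul _ V, map_mul (aeval ζ), c8, c9, z1, tors_aeval,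
      mul_zero, zero_mul, add_zero] at c6
    have hk := hζ.pow_of_coprime k (Nat.Coprime.pow_right _ (Nat.coprime_two_right.2 e))
    have d1 := natDegree_le_of_dvd ((minpoly.isIntegrallyClosed_dvd (hk.isIntegral N0) c6).trans
      (dvd_prod_of_mem ρ (mem_product.2 ⟨mS a l c1, mS a' l' c2⟩))) p0
    rw [← cyclotomic_eq_minpoly hk N0, cy, dg, ← hm] at d1
    have := (m + 1).lt_two_pow_self
    omega
  choose c c0 c1 using h2
  refine ⟨m + 1, ∏ k ∈ range (2 * 2 ^ (m + 1)), (c k).natAbs, by omega,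
    prod_pos fun k _ => Int.natAbs_pos.2 (c0 k), Or.inr fun x y p k hk hk' e e1 e2 => ?_⟩
  refine Dvd.dvd.trans (Int.natCast_dvd.1 ?_) (dvd_prod_of_mem _ (mem_range.2 hk'))
  obtain ⟨U, V, e3⟩ := c1 k hk
  have e4 := congrArg (eval y) e3
  have e5 := e2.trans (sub_dvd_eval_sub x (y ^ k) (F.eval (C y)))
  rw [show eval x (F.eval (C y)) = 0 from e, zero_sub, dvd_neg] at e5
  simp only [eval_C, eval_add, eval_mul, eval_pow, eval_X, eval_one, tors_eval] at e4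
  rw [e4]
  exact dvd_add (e1.mul_left _) (Dvd.dvd.mul_left e5 _)

end Pool.Agent.P.MP_b2ceab_nt.XE
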