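import Pool.Agent.P.MP_b2ceab_nt.XE.Iface

/-! Step V1. -/

set_option autoImplicit false
set_option linter.unusedSectionVars false

namespace Pool.Agent.P.MP_b2ceab_nt.XE

open Finset Polynomial

theorem v1_count (E N lam x y : ℕ) (hN : 0 < N) (hx : 2 ≤ x) (hy : 2 ≤ y) (hl : 1 ≤ lam)
    (hyx : y ≤ x ^ (lam + 1)) (s : Finset ℕ) (hs : s ⊆ (y ^ N + 1).primeFactors)
    (hb : ∀ p ∈ s, x ≤ p ^ E) : ∑ p ∈ s, (y ^ N + 1).factorization p ≤ 4 * N * E * lam := by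
  have h1 : ∏ p ∈ s, p ^ (y ^ N + 1).factorization p ≤ y ^ N + 1 := by
    conv_rhs => rw [← Nat.prod_factorization_pow_eq_self (n := y ^ N + 1) (by positivity)]
    rw [Finsupp.prod, Nat.support_factorization]
    exact prod_le_prod_of_subset_of_one_le' hs fun p hp _ =>
      Nat.one_le_pow _ _ (Nat.prime_of_mem_primeFactors hp).pos
  have h2 : y ^ N + 1 ≤ y ^ (2 * N) := by
    have : y ≤ y ^ N := Nat.le_self_pow hN.ne' y
    rw [two_mul, pow_add]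
    nlinarith
  have h3 : y ≤ x ^ (2 * lam) := hyx.trans (Nat.pow_le_pow_right (by omega) (by omega))
  refine (Nat.pow_le_pow_iff_right (a := x) (by omega)).1 ?_
  calc x ^ ∑ p ∈ s, (y ^ N + 1).factorization p
      = ∏ p ∈ s, x ^ (y ^ N + 1).factorization p := (prod_pow_eq_pow_sum _ _ _).symm
    _ ≤ ∏ p ∈ s, (p ^ (y ^ N + 1).factorization p) ^ E := by
        refine prod_le_prod' fun p hp => ?_
        rw [← pow_mul, mul_comm, pow_mul]
        exact Nat.pow_le_pow_left (hb p hp) _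
    _ = (∏ p ∈ s, p ^ (y ^ N + 1).factorization p) ^ E := prod_pow _ _ _
    _ ≤ ((x ^ (2 * lam)) ^ (2 * N)) ^ E :=
        Nat.pow_le_pow_left (h1.trans (h2.trans (Nat.pow_le_pow_left h3 _))) _
    _ = x ^ (4 * N * E * lam) := by rw [← pow_mul, ← pow_mul]; congr 1; ring

theorem v1_fib (M : ℕ) (s : Finset ℕ) (c v : ℕ → ℕ) :
    ∑ k : Fin M, ∑ p ∈ s with c p = k, v p ≤ ∑ p ∈ s, v p := by
  rw [Fin.sum_univ_eq_sum_range (fun k => ∑ p ∈ s with c p = k, v p)]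
  simp only [sum_filter]
  rw [sum_comm]
  refine sum_le_sum fun p _ => ?_
  rw [sum_ite_eq]
  split_ifs <;> simp

theorem p_V1 (hLEV : S_LEV) (hAUX : S_AUX) (hSHIFT : S_SHIFT) :
    S_V1 := by
  intro E n' d x y hE hd hd0 hx hxy hH
  have hl : 1 ≤ Nat.log x y := Nat.log_pos (by omega) hxy.le
  have hyx : y ≤ x ^ (Nat.log x y + 1) := (Nat.lt_pow_succ_log_self (by omega) y).le
  unfold Dv Hv
  generalize Nat.log x y = lam at hl hyx ⊢
  have hc : ∀ n p : ℕ, ∃ k : ℕ, 1 ≤ n → n ≤ n' → p.Prime → p ≠ 2 → p ∣ y ^ 2 ^ n + 1 →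
      k < 2 * 2 ^ n ∧ (p : ℤ) ∣ (x : ℤ) - (y : ℤ) ^ k := by
    intro n p
    by_cases h : 1 ≤ n ∧ n ≤ n' ∧ p.Prime ∧ p ≠ 2 ∧ p ∣ y ^ 2 ^ n + 1
    · obtain ⟨-, -, k, k1, -, k2⟩ :=
        hLEV (n' + 1) x y n p hH h.1 (by omega) h.2.2.1 h.2.2.2.1 h.2.2.2.2
      exact ⟨k, fun _ _ _ _ _ => ⟨k1, k2⟩⟩
    · exact ⟨0, fun a b c d e => absurd ⟨a, b, c, d, e⟩ h⟩
  choose cls hcls using hc
  set big : ℕ → Finset ℕ := fun n => (y ^ 2 ^ n + 1).primeFactors.filter fun p => ¬ p ^ E ≤ x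
    with hbig
  set tau : ℕ → ℕ → ℕ := fun n k => 6 * E * lam +
    ∑ p ∈ big n with cls n p = k, (y ^ 2 ^ n + 1).factorization p with htau
  have ht : ∀ n : ℕ, ∑ k : Fin (2 * 2 ^ n), tau n k ≤ 16 * 2 ^ n * E * lam := by
    intro n
    have a1 := v1_fib (2 * 2 ^ n) (big n) (cls n) (fun p => (y ^ 2 ^ n + 1).factorization p)
    have a2 := v1_count E (2 ^ n) lam x y (by positivity) hx (by omega) hl hyx (big n)
      (filter_subset _ _) fun p hp => (not_le.1 (mem_filter.1 hp).2).le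
    simp only [htau]
    rw [sum_add_distrib, sum_const, card_univ, Fintype.card_fin, smul_eq_mul]
    have a3 : 2 * 2 ^ n * (6 * E * lam) + 4 * 2 ^ n * E * lam = 16 * 2 ^ n * E * lam := by ring
    omega
  obtain ⟨g, g0, g1, g2⟩ := hAUX ((n : Fin n') × Fin (2 * 2 ^ ((n : ℕ) + 1)))
    (fun i => 2 ^ ((i.1 : ℕ) + 1)) (fun i => i.2)
    (fun i => tau (i.1 + 1) i.2 * 2 ^ (n' - (i.1 + 1))) (fun i => 2 ^ (n' - (i.1 + 1)))
    (lam * (d * 2 ^ n')) (d * 2 ^ n') (fun i => ⟨by positivity, i.2.2.le⟩) (by positivity)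
    (Nat.le_mul_of_pos_left _ hl) (by
      rw [Fintype.sum_sigma]
      have b1 : ∀ n : Fin n', ∑ k : Fin (2 * 2 ^ ((n : ℕ) + 1)),
          2 ^ ((n : ℕ) + 1) * (tau (n + 1) k * 2 ^ (n' - (n + 1))) * 2 ^ (n' - (n + 1)) ≤
          16 * E * lam * (2 ^ n') ^ 2 := by
        intro n
        have e : 2 ^ n' = 2 ^ ((n : ℕ) + 1) * 2 ^ (n' - (n + 1)) := by
          rw [← pow_add]; congr 1; omega
        rw [← sum_mul, ← mul_sum, ← sum_mul]
        calc _ ≤ 2 ^ ((n : ℕ) + 1) * (16 * 2 ^ ((n : ℕ) + 1) * E * lam * 2 ^ (n' - (n + 1))) *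
              2 ^ (n' - (n + 1)) := by
              gcongr
              exact ht _
          _ = _ := by
              conv_rhs => rw [e]
              ring
      have b2 := sum_le_sum fun n (_ : n ∈ (univ : Finset (Fin n'))) => b1 n
      rw [sum_const, card_univ, Fintype.card_fin, smul_eq_mul] at b2
      calc _ ≤ 2 * (n' * (16 * E * lam * (2 ^ n') ^ 2)) := Nat.mul_le_mul_left _ b2
        _ = 32 * n' * E * (lam * (2 ^ n') ^ 2) := by ring
        _ ≤ d ^ 2 * (lam * (2 ^ n') ^ 2) := Nat.mul_le_mul_right _ hd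
        _ = _ := by ring)
  refine ⟨g, g0, g1, fun n p I n1 n2 hp hp2 hpd hv => ?_⟩
  obtain ⟨m, rfl⟩ : ∃ m, n = m + 1 := ⟨n - 1, by omega⟩
  obtain ⟨k1, k2⟩ := hcls (m + 1) p n1 n2 hp hp2 hpd
  have hv' : (y ^ 2 ^ (m + 1) + 1).factorization p ≤ tau (m + 1) (cls (m + 1) p) := by
    simp only [htau]
    by_cases hb : p ^ E ≤ x
    · exact (not_lt.1 fun h => hv ⟨hb, h⟩).trans (Nat.le_add_right _ _)
    · refine le_trans ?_ (Nat.le_add_left _ _)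
      have hm : p ∈ big (m + 1) :=
        mem_filter.2 ⟨Nat.mem_primeFactors.2 ⟨hp, hpd, by positivity⟩, hb⟩
      refine single_le_sum (f := fun p => (y ^ 2 ^ (m + 1) + 1).factorization p)
        (fun _ _ => Nat.zero_le _) ?_
      rw [mem_filter]
      exact ⟨hm, rfl⟩
  have hdv : (p : ℤ) ^ (y ^ 2 ^ (m + 1) + 1).factorization p ∣ (y : ℤ) ^ 2 ^ (m + 1) + 1 := by
    exact_mod_cast Nat.ordProj_dvd (y ^ 2 ^ (m + 1) + 1) p
  refine hSHIFT _ _ g x ((y : ℤ) ^ cls (m + 1) p) y p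
    (tau (m + 1) (cls (m + 1) p) * 2 ^ (n' - (m + 1))) _ I k2
    (by rw [mul_comm]; exact Nat.mul_le_mul_right _ hv') fun j hj => ?_
  refine dvd_trans ?_ (g2 ⟨⟨m, n2⟩, ⟨cls (m + 1) p, k1⟩⟩ y j hj)
  rw [mul_comm, pow_mul]
  exact pow_dvd_pow_of_dvd hdv _

end Pool.Agent.P.MP_b2ceab_nt.XE
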