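import Pool.Agent.P.MP_b2ceab_nt.XE.Iface

/-! Step V2. -/

set_option autoImplicit false
set_option linter.unusedSectionVars false

namespace Pool.Agent.P.MP_b2ceab_nt.XE

open Finset Polynomial

theorem v2_prod (y n : ℕ) : ∏ i ∈ Icc 1 n, (y ^ 2 ^ i + 1) ∣ y ^ (2 * 2 ^ n) - 1 := by
  induction n with
  | zero => simp
  | succ n ih =>
    rw [prod_Icc_succ_top (by omega), show 2 * 2 ^ n = 2 ^ (n + 1) from (pow_succ' 2 n).symm] at *
    rw [mul_comm 2, pow_mul, ← one_pow 2, Nat.sq_sub_sq, mul_comm]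
    exact Nat.mul_dvd_mul_left _ ih

theorem p_V2 (hMIN : S_MIN) :
    S_V2 := by
  intro E n' x y hx hxy h
  have l1 : 1 ≤ Nat.log x y := Nat.log_pos (by omega) hxy.le
  have l2 : y < x ^ (Nat.log x y + 1) := Nat.lt_pow_succ_log_self (by omega) y
  rw [hvp, prod_sigma'] at h
  set T := (Icc 1 n').sigma fun n => (y ^ 2 ^ n + 1).primeFactors.filter
    fun p => p ≠ 2 ∧ Hv E x y n p with hT
  have mT : ∀ t ∈ T, t.2.Prime ∧ t.2 ≠ 2 ∧ Hv E x y t.1 t.2 := fun t ht =>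
    ⟨Nat.prime_of_mem_primeFactors (mem_filter.1 (mem_sigma.1 ht).2).1,
      (mem_filter.1 (mem_sigma.1 ht).2).2⟩
  obtain ⟨T', t1, t2, t3⟩ := hMIN _ T (fun t => t.2 ^ (y ^ 2 ^ t.1 + 1).factorization t.2)
    (fun t => t.2) E ((Nat.log x y + 1) * 3) x (y ^ 3) (fun t ht => ⟨Nat.pow_le_pow_right
      (mT t ht).1.pos (by nlinarith [(mT t ht).2.2.2, Nat.mul_le_mul_left E l1]), (mT t ht).2.2.1⟩)
    (Nat.one_lt_pow (by omega) (by omega)) (by rw [pow_mul]; exact Nat.pow_le_pow_left l2.le 3) h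
  have key : ∀ p : ℕ, p.Prime → p ∣ ∏ t ∈ T', t.2 ^ (y ^ 2 ^ t.1 + 1).factorization t.2 →
      ∃ t ∈ T', p = t.2 := fun p hp hd => by
    obtain ⟨t, ht, k⟩ := (hp.prime.dvd_finsetProd_iff _).1 hd
    exact ⟨t, ht, (Nat.prime_dvd_prime_iff_eq hp (mT t (t1 ht)).1).1 (hp.dvd_of_dvd_pow k)⟩
  refine ⟨_, prod_pos fun t ht => (mT t (t1 ht)).1.pos, t3, _, ?_, ?_, t2, fun p hp hd => ?_⟩
  · rw [← Nat.not_even_iff_odd, even_iff_two_dvd]
    intro hd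
    obtain ⟨t, ht, e⟩ := key 2 Nat.prime_two hd
    exact (mT t (t1 ht)).2.1 e.symm
  · refine (prod_dvd_prod_of_subset _ _ _ t1).trans (Dvd.dvd.trans ?_ (v2_prod y n'))
    rw [hT, prod_sigma]
    refine prod_dvd_prod_of_dvd _ _ fun n _ => ?_
    conv_rhs => rw [← Nat.prod_factorization_pow_eq_self (Nat.add_one_ne_zero (y ^ 2 ^ n))]
    exact prod_dvd_prod_of_subset _ _ _ (filter_subset _ _)
  · obtain ⟨t, ht, rfl⟩ := key p hp hd
    exact dvd_prod_of_mem (fun t : Σ _ : ℕ, ℕ => t.2) ht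

end Pool.Agent.P.MP_b2ceab_nt.XE
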