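import Pool.Agent.P.MP_b2ceab_nt.XE.Iface

/-! Step V3. -/

set_option autoImplicit false
set_option linter.unusedSectionVars false

namespace Pool.Agent.P.MP_b2ceab_nt.XE

open Finset Polynomial

theorem v3_size {A B : ℕ} (g : Fin A × Fin B → ℤ) (x y I : ℕ) (hx : 512 ≤ x) (hy : 1 ≤ y)
    (hB : B ≤ A) (hg : ∀ t, |g t| ≤ 2 ^ (6 * A)) :
    (tay g x y I).natAbs ≤ x ^ A * x ^ A * y ^ B := by
  have h1 : |tay g x y I| ≤ ((A * B * (2 ^ (6 * A) * 2 ^ A * x ^ A * y ^ B) : ℕ) : ℤ) := by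
    refine (abs_sum_le_sum_abs _ _).trans ((sum_le_sum (g := fun _ =>
      ((2 ^ (6 * A) * 2 ^ A * x ^ A * y ^ B : ℕ) : ℤ)) fun t _ => ?_).trans_eq (by simp))
    have a1 : (t.1 : ℕ).choose I ≤ 2 ^ A :=
      (Nat.choose_le_two_pow _ _).trans (Nat.pow_le_pow_right (by norm_num) t.1.2.le)
    have a2 : x ^ ((t.1 : ℕ) - I) ≤ x ^ A :=
      Nat.pow_le_pow_right (by omega) ((Nat.sub_le _ _).trans t.1.2.le)
    have a3 : y ^ (t.2 : ℕ) ≤ y ^ B := Nat.pow_le_pow_right hy t.2.2.le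
    have a4 : ((t.1 : ℕ).choose I * x ^ ((t.1 : ℕ) - I) * y ^ (t.2 : ℕ) : ℤ) ≤
        2 ^ A * x ^ A * y ^ B := by
      exact_mod_cast Nat.mul_le_mul (Nat.mul_le_mul a1 a2) a3
    rw [mul_assoc, mul_assoc, abs_mul, ← mul_assoc, abs_of_nonneg (a := _ * _) (by positivity)]
    push_cast
    rw [mul_assoc (2 ^ (6 * A) : ℤ), mul_assoc (2 ^ (6 * A) : ℤ)]
    exact mul_le_mul (hg t) a4 (by positivity) (by positivity)
  have h2 : (tay g x y I).natAbs ≤ A * B * (2 ^ (6 * A) * 2 ^ A * x ^ A * y ^ B) := by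
    rw [Int.abs_eq_natAbs] at h1
    exact_mod_cast h1
  have h3 : A ≤ 2 ^ A := Nat.lt_two_pow_self.le
  have h4 : 2 ^ A * 2 ^ A * (2 ^ (6 * A) * 2 ^ A) ≤ x ^ A := by
    rw [show 2 ^ A * 2 ^ A * (2 ^ (6 * A) * 2 ^ A) = (2 ^ 9) ^ A by rw [← pow_mul 2 9]; ring]
    exact Nat.pow_le_pow_left (by omega) _
  calc _ ≤ _ := h2
    _ ≤ 2 ^ A * 2 ^ A * (2 ^ (6 * A) * 2 ^ A * x ^ A * y ^ B) :=
      Nat.mul_le_mul_right _ (Nat.mul_le_mul h3 (hB.trans h3))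
    _ = 2 ^ A * 2 ^ A * (2 ^ (6 * A) * 2 ^ A) * x ^ A * y ^ B := by ring
    _ ≤ _ := Nat.mul_le_mul_right _ (Nat.mul_le_mul_right _ h4)

theorem v3_prod (x k : ℕ) (hx : 2 ≤ x) : ∏ n ∈ Icc 1 k, (x ^ 2 ^ n + 1) ≤ x ^ (2 * 2 ^ k) := by
  have h : (∏ n ∈ Icc 1 k, (x ^ 2 ^ n + 1)) * x ^ 2 + 1 =
      x ^ (2 * 2 ^ k) + ∏ n ∈ Icc 1 k, (x ^ 2 ^ n + 1) := by
    induction k with
    | zero => simp
    | succ k ih =>
      rw [prod_Icc_succ_top (by omega), show 2 * 2 ^ (k + 1) = 2 ^ (k + 1) + 2 ^ (k + 1) by ring,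
        pow_add x]
      rw [show 2 * 2 ^ k = 2 ^ (k + 1) by ring] at ih
      zify at ih ⊢
      linear_combination ((x : ℤ) ^ 2 ^ (k + 1) + 1) * ih
  have h2 : 2 ^ 2 ≤ x ^ 2 := Nat.pow_le_pow_left hx 2
  have h3 := Nat.mul_le_mul_left (∏ n ∈ Icc 1 k, (x ^ 2 ^ n + 1)) h2
  omega

theorem v3_one {y n m p : ℕ} (h : n < m) (hp : p.Prime) (h2 : p ≠ 2) (a : p ∣ y ^ 2 ^ n + 1)
    (b : p ∣ y ^ 2 ^ m + 1) : False := by
  obtain ⟨k, rfl⟩ := Nat.exists_eq_add_of_lt h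
  rw [← ZMod.natCast_eq_zero_iff] at a b
  push_cast at a b
  rw [add_assoc, pow_add, pow_mul, eq_neg_of_add_eq_zero_left a,
    Even.neg_one_pow ⟨2 ^ k, by ring⟩] at b
  have c : ((2 : ℕ) : ZMod p) = 0 := by rw [← b]; norm_num
  exact h2 ((Nat.prime_dvd_prime_iff_eq hp Nat.prime_two).1 ((ZMod.natCast_eq_zero_iff _ _).1 c))

theorem v3_split (u : ℕ) (hu : u ≠ 0) (h4 : ¬ 4 ∣ u) (H : ℕ → Prop) [DecidablePred H] :
    u ≤ 2 * (∏ p ∈ u.primeFactors with p ≠ 2 ∧ H p, p ^ u.factorization p) *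
      ∏ p ∈ u.primeFactors with p ≠ 2 ∧ ¬ H p, p ^ u.factorization p := by
  have h1 : ∏ p ∈ u.primeFactors, p ^ u.factorization p = u :=
    Nat.prod_factorization_pow_eq_self hu
  have h2 := prod_filter_mul_prod_filter_not u.primeFactors (· ≠ 2)
    fun p => p ^ u.factorization p
  have h3 := prod_filter_mul_prod_filter_not (u.primeFactors.filter (· ≠ 2)) H
    fun p => p ^ u.factorization p
  rw [filter_filter, filter_filter] at h3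
  have h5 : u.factorization 2 ≤ 1 := by
    by_contra h6
    exact h4 ((Nat.prime_two.pow_dvd_iff_le_factorization hu (k := 2)).2 (by omega))
  have h6 : ∏ p ∈ u.primeFactors with ¬ p ≠ 2, p ^ u.factorization p ≤ 2 := by
    refine (prod_le_prod_of_subset_of_one_le' (t := {2}) (fun p hp => ?_) fun p hp _ => ?_).trans ?_
    · simpa using (mem_filter.1 hp).2
    · rw [mem_singleton.1 hp]; exact Nat.one_le_two_pow
    · rw [prod_singleton]; exact Nat.pow_le_pow_right (n := 2) (by norm_num) h5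
  rw [mul_assoc, h3, mul_comm]
  calc u = _ := (h2.trans h1).symm
    _ ≤ _ := Nat.mul_le_mul_left _ h6

theorem v3_four (y n : ℕ) (hn : 1 ≤ n) : ¬ 4 ∣ y ^ 2 ^ n + 1 := by
  obtain ⟨k, rfl⟩ := Nat.exists_eq_add_of_le' hn
  rw [pow_succ, pow_mul]
  generalize y ^ 2 ^ k = z
  intro h
  have h1 : z % 4 = 0 ∨ z % 4 = 1 ∨ z % 4 = 2 ∨ z % 4 = 3 := by omega
  have h2 := Nat.pow_mod z 2 4
  rcases h1 with h1 | h1 | h1 | h1 <;> rw [h1] at h2 <;> omega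

theorem p_V3 (hLEV : S_LEV) :
    S_V3 := by
  intro E n' d x y hd hx hn hxy hH hv g hg hD I hI
  by_contra hV
  have hl : 1 ≤ Nat.log x y := Nat.log_pos (by omega) hxy.le
  have hxl : x ^ Nat.log x y ≤ y := Nat.pow_log_le_self x (by omega)
  have hs := v3_size g x y I hx (by omega) (Nat.le_mul_of_pos_left _ hl) hg
  have hN : 0 < (tay g x y I).natAbs := Int.natAbs_pos.2 hV
  have hxA : x ^ (Nat.log x y * (d * 2 ^ n')) ≤ y ^ (d * 2 ^ n') := by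
    rw [pow_mul]; exact Nat.pow_le_pow_left hxl _
  have hs2 := hs.trans (Nat.mul_le_mul_right _ (Nat.mul_le_mul hxA hxA))
  set P := ∏ n ∈ Icc 1 n', (x ^ 2 ^ n + 1) with hP
  have hP0 : 0 < P := prod_pos fun _ _ => Nat.succ_pos _
  have hPI : P ^ I ≤ y ^ (2 * 2 ^ n') := by
    calc P ^ I ≤ P ^ Nat.log x y := Nat.pow_le_pow_right hP0 hI
      _ ≤ (x ^ (2 * 2 ^ n')) ^ Nat.log x y := Nat.pow_le_pow_left (v3_prod x n' (by omega)) _
      _ = (x ^ Nat.log x y) ^ (2 * 2 ^ n') := by rw [← pow_mul, ← pow_mul, mul_comm]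
      _ ≤ _ := Nat.pow_le_pow_left hxl _
  let G : ℕ → Finset ℕ := fun n =>
    (y ^ 2 ^ n + 1).primeFactors.filter fun p => p ≠ 2 ∧ ¬ Hv E x y n p
  let gam : ℕ → ℕ := fun n => ∏ p ∈ G n, p ^ (y ^ 2 ^ n + 1).factorization p
  let hh : ℕ → ℕ := fun n => ∏ p ∈ (y ^ 2 ^ n + 1).primeFactors with p ≠ 2 ∧ Hv E x y n p,
    p ^ (y ^ 2 ^ n + 1).factorization p
  have hG : ∀ n p, p ∈ G n → p.Prime ∧ p ∣ y ^ 2 ^ n + 1 ∧ p ≠ 2 ∧ ¬ Hv E x y n p :=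
    fun n p hp => ⟨(Nat.mem_primeFactors.1 (mem_filter.1 hp).1).1,
      (Nat.mem_primeFactors.1 (mem_filter.1 hp).1).2.1, (mem_filter.1 hp).2⟩
  have h1 : ∀ n ∈ Icc 1 n', gam n ^ 2 ^ (n' - n) ∣ (tay g x y I).natAbs * P ^ I := by
    intro n hn
    obtain ⟨n1, n2⟩ := mem_Icc.1 hn
    rw [← prod_pow]
    refine Finset.prod_dvd_of_isRelPrime (fun p hp q hq e => ?_) fun p hp => ?_
    · exact Nat.coprime_iff_isRelPrime.1 (Nat.Coprime.pow _ _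
        (Nat.coprime_pow_primes _ _ (hG n p hp).1 (hG n q hq).1 e))
    · obtain ⟨a, b, c, e⟩ := hG n p hp
      have f := hD n p I n1 n2 a c b e
      have f1 : p ∣ P := (hLEV _ x y n p hH n1 (by omega) a c b).1.trans (dvd_prod_of_mem _ hn)
      have f2 := Int.natAbs_dvd_natAbs.2 f
      rw [Int.natAbs_mul, Int.natAbs_pow, Int.natAbs_pow, Int.natAbs_natCast] at f2
      rw [← pow_mul, mul_comm]
      exact f2.trans (Nat.mul_dvd_mul_left _ (pow_dvd_pow_of_dvd f1 _))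
  have h2 : ∏ n ∈ Icc 1 n', gam n ^ 2 ^ (n' - n) ∣ (tay g x y I).natAbs * P ^ I := by
    refine Finset.prod_dvd_of_isRelPrime (fun n _ m _ e => ?_) h1
    refine Nat.coprime_iff_isRelPrime.1 (Nat.Coprime.pow _ _ (Nat.Coprime.prod_left fun p hp =>
      Nat.Coprime.prod_right fun q hq => Nat.coprime_pow_primes _ _ (hG n p hp).1 (hG m q hq).1 ?_))
    rintro rfl
    obtain ⟨a, b, c, -⟩ := hG n p hp
    rcases lt_or_gt_of_ne e with l | l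
    · exact v3_one l a c b (hG m p hq).2.1
    · exact v3_one l a c (hG m p hq).2.1 b
  have h3 : ∀ n ∈ Icc 1 n', y ^ 2 ^ n' ≤ (2 * hh n) ^ 2 ^ n' * gam n ^ 2 ^ (n' - n) := by
    intro n hn
    obtain ⟨n1, n2⟩ := mem_Icc.1 hn
    have a := v3_split (y ^ 2 ^ n + 1) (Nat.succ_ne_zero _) (v3_four y n n1) (Hv E x y n)
    have b : 0 < 2 * hh n := Nat.pos_of_mul_pos_right (lt_of_lt_of_le (Nat.succ_pos _) a)
    calc y ^ 2 ^ n' = (y ^ 2 ^ n) ^ 2 ^ (n' - n) := by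
          rw [← pow_mul, ← pow_add, Nat.add_sub_cancel' n2]
      _ ≤ (2 * hh n * gam n) ^ 2 ^ (n' - n) := Nat.pow_le_pow_left ((Nat.le_succ _).trans a) _
      _ = (2 * hh n) ^ 2 ^ (n' - n) * gam n ^ 2 ^ (n' - n) := mul_pow _ _ _
      _ ≤ _ := Nat.mul_le_mul_right _ (Nat.pow_le_pow_right b
          (Nat.pow_le_pow_right (by norm_num) (Nat.sub_le _ _)))
  have h4 := prod_le_prod' h3
  rw [prod_const, Nat.card_Icc, Nat.add_sub_cancel, prod_mul_distrib, prod_pow, prod_mul_distrib,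
    prod_const, Nat.card_Icc, Nat.add_sub_cancel] at h4
  have h5 : (2 ^ n' * ∏ n ∈ Icc 1 n', hh n) ^ 2 ^ n' ≤ (y * y ^ 3) ^ 2 ^ n' :=
    Nat.pow_le_pow_left (Nat.mul_le_mul (by omega) hv.le) _
  have h6 := h4.trans (Nat.mul_le_mul h5 ((Nat.le_of_dvd (by positivity) h2).trans
    (Nat.mul_le_mul hs2 hPI)))
  rw [show (y * y ^ 3) ^ 2 ^ n' * (y ^ (d * 2 ^ n') * y ^ (d * 2 ^ n') * y ^ (d * 2 ^ n') *
    y ^ (2 * 2 ^ n')) = (y ^ 2 ^ n') ^ (3 * d + 6) by ring] at h6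
  have h7 : 1 < y ^ 2 ^ n' := Nat.one_lt_pow (by positivity) (by omega)
  have h8 := (Nat.pow_le_pow_iff_right h7).1 h6
  omega

end Pool.Agent.P.MP_b2ceab_nt.XE
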