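import Pool.Agent.P.MP_b2ceab_nt.XE.Iface
import Pool.Agent.P.MP_fc15d7_nt.TROTH
import Pool.Agent.P.MP_fc15d7_nt.TELIM

/-! Step ZERO. -/

set_option autoImplicit false
set_option linter.unusedSectionVars false

namespace Pool.Agent.P.MP_b2ceab_nt.XE

open Finset Polynomial
open Pool.Agent.P.MP_7aad9f_nt.Sub (Ord nrm sb size_nrm_sum size_nrm_monomial)

/-- The reversed exponent. -/
noncomputable def zeroE {A B : ℕ} (t : Fin A × Fin B) : Fin 2 →₀ ℕ :=
  Finsupp.single 0 (A - 1 - t.1) + Finsupp.single 1 (B - 1 - t.2)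

theorem zero_e0 {A B : ℕ} (t : Fin A × Fin B) : zeroE t 0 = A - 1 - t.1 := by simp [zeroE]

theorem zero_e1 {A B : ℕ} (t : Fin A × Fin B) : zeroE t 1 = B - 1 - t.2 := by simp [zeroE]

theorem zero_inj {A B : ℕ} {s t : Fin A × Fin B} (h : zeroE s = zeroE t) : s = t := by
  have h0 := zero_e0 s
  have h1 := zero_e1 s
  rw [h, zero_e0] at h0
  rw [h, zero_e1] at h1
  have := s.1.2; have := t.1.2; have := s.2.2; have := t.2.2
  exact Prod.ext (Fin.ext (by omega)) (Fin.ext (by omega))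

theorem zero_rev {R : Type} [CommRing R] (x ξ γ : R) (h : γ + x * ξ = 1) {A a : ℕ} (ha : a < A) :
    ξ ^ (A - 1 - a) =
      ∑ I ∈ range A, γ ^ I * ξ ^ (A - 1 - I) * ((a.choose I : R) * x ^ (a - I)) := by
  have h1 : ξ ^ (A - 1 - a) = ξ ^ (A - 1 - a) * (γ + x * ξ) ^ a := by rw [h, one_pow, mul_one]
  rw [h1, add_pow, mul_sum]
  refine (sum_congr rfl fun I hI => ?_).trans
    (sum_subset (range_subset_range.2 (show a + 1 ≤ A by omega)) fun I _ hI => ?_)
  · have := mem_range.1 hI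
    rw [show A - 1 - I = (A - 1 - a) + (a - I) by omega, pow_add, mul_pow]
    ring
  · rw [Nat.choose_eq_zero_of_lt (by simpa using hI)]
    simp

theorem zero_ord {A B : ℕ} (g : Fin A × Fin B → ℤ) {x y : ℕ} (hx : 0 < x) (hy : 0 < y) (w l : ℕ)
    (h : ∀ I : ℕ, I ≤ l → tay g x y I = 0) :
    Ord ![(x : ℚ)⁻¹, (y : ℚ)⁻¹] ![w, l * w] (l * w)
      (∑ t, MvPolynomial.monomial (zeroE t) (g t)) := by
  intro b
  have hx' : (x : ℚ) ≠ 0 := by positivity
  have hy' : (y : ℚ) ≠ 0 := by positivity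
  set ξ : ℚ[X] := C (x : ℚ)⁻¹ + C (b 0) * X ^ w with hξ
  set γ : ℚ[X] := -(C (x : ℚ) * (C (b 0) * X ^ w)) with hγ
  have e1 : γ + (x : ℚ[X]) * ξ = 1 := by
    have : (x : ℚ[X]) = C (x : ℚ) := by simp
    rw [this, hξ, hγ, mul_add, ← C_mul (a := (x : ℚ)) (b := (x : ℚ)⁻¹), mul_inv_cancel₀ hx', C_1]
    ring
  have e2 : sb ![(x : ℚ)⁻¹, (y : ℚ)⁻¹] ![w, l * w] b
      (∑ t, MvPolynomial.monomial (zeroE t) (g t)) = ∑ t : Fin A × Fin B, (g t : ℚ[X]) *
        (ξ ^ (A - 1 - t.1) * (C (y : ℚ)⁻¹ + C (b 1) * X ^ (l * w)) ^ (B - 1 - t.2)) := by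
    rw [map_sum]
    refine sum_congr rfl fun t _ => ?_
    rw [sb, MvPolynomial.eval₂Hom_monomial, Finsupp.prod_fintype _ _ (by simp), Fin.prod_univ_two,
      zero_e0, zero_e1]
    simp [hξ]
  have e3 : (X : ℚ[X]) ^ (l * w) ∣ ∑ t : Fin A × Fin B, (g t : ℚ[X]) *
      (ξ ^ (A - 1 - t.1) * (C (y : ℚ)⁻¹) ^ (B - 1 - t.2)) := by
    have e4 : ∑ t : Fin A × Fin B, (g t : ℚ[X]) *
        (ξ ^ (A - 1 - t.1) * (C (y : ℚ)⁻¹) ^ (B - 1 - t.2)) = ∑ I ∈ range A,
          γ ^ I * ξ ^ (A - 1 - I) * (C (y : ℚ)⁻¹ ^ (B - 1) * ((tay g x y I : ℤ) : ℚ[X])) := by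
      simp only [tay, Int.cast_sum, mul_sum]
      rw [sum_comm]
      refine sum_congr rfl fun t _ => ?_
      have e5 : (C (y : ℚ)⁻¹ : ℚ[X]) ^ (B - 1 - t.2) =
          C (y : ℚ)⁻¹ ^ (B - 1) * (y : ℚ[X]) ^ (t.2 : ℕ) := by
        have : (y : ℚ[X]) = C (y : ℚ) := by simp
        have h2 := t.2.2
        rw [this, show B - 1 = (B - 1 - t.2) + t.2 by omega, pow_add, mul_assoc, ← mul_pow, ← C_mul,
          inv_mul_cancel₀ hy', C_1, one_pow, mul_one, Nat.add_sub_cancel]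
      rw [zero_rev _ _ _ e1 t.1.2, e5, sum_mul, mul_sum]
      refine sum_congr rfl fun I _ => ?_
      push_cast
      ring
    rw [e4]
    refine dvd_sum fun I _ => ?_
    rcases le_or_gt I l with hI | hI
    · rw [h I hI]; simp
    · refine Dvd.dvd.mul_right (Dvd.dvd.mul_right ?_ _) _
      rw [mul_comm l, pow_mul]
      refine (pow_dvd_pow_of_dvd ?_ l).trans (pow_dvd_pow _ hI.le)
      exact (dvd_neg.2 (Dvd.dvd.mul_left (dvd_mul_left _ _) _))
  rw [e2]
  refine (dvd_iff_dvd_of_dvd_sub ?_).2 e3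
  rw [← sum_sub_distrib]
  refine dvd_sum fun t _ => ?_
  rw [← mul_sub, ← mul_sub]
  refine Dvd.dvd.mul_left (Dvd.dvd.mul_left ?_ _) _
  refine Dvd.dvd.trans ?_ (sub_dvd_pow_sub_pow _ _ _)
  rw [add_sub_cancel_left]
  exact dvd_mul_left _ _

theorem p_ZERO :
    S_ZERO := by
  intro D hD
  have hD' : (0 : ℝ) < D := by exact_mod_cast hD
  obtain ⟨lam, ρ, w0, hl, H⟩ := MP_fc15d7_nt.t_ROTH MP_fc15d7_nt.t_ELIM 2 (1 / D) 1
    (by positivity) one_pos
  obtain ⟨w, hw⟩ := exists_nat_ge (8 / lam)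
  refine ⟨ρ + 1, 3 ^ (w + w0 + 1), fun l x y hρ hx hy g hg hb h => ?_⟩
  set v := w + w0 + 1 with hv
  have hx0 : 0 < x := lt_of_lt_of_le (by positivity) hx
  have hy0 : 0 < y := lt_of_lt_of_le (by positivity) hy
  have hlx : (v : ℝ) ≤ Real.log x := by
    rw [Real.le_log_iff_exp_le (by exact_mod_cast hx0), ← mul_one (v : ℝ), Real.exp_nat_mul]
    refine le_trans (pow_le_pow_left₀ (Real.exp_pos 1).le
      (show Real.exp 1 ≤ 3 by linarith [Real.exp_one_lt_d9]) v) ?_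
    exact_mod_cast hx
  have hly : ((l * v : ℕ) : ℝ) ≤ Real.log y := by
    refine le_trans ?_ (Real.log_le_log (by positivity : (0 : ℝ) < (x : ℝ) ^ l)
      (by exact_mod_cast hy))
    rw [Real.log_pow]
    push_cast
    exact mul_le_mul_of_nonneg_left (by exact_mod_cast hlx) (by positivity)
  have h1 : v ≤ l * v := Nat.le_mul_of_pos_left _ (by omega)
  have h2 : l * v ≤ l * v * D := Nat.le_mul_of_pos_right _ hD
  have hdeg : ∀ h : Fin 2, (∑ t, MvPolynomial.monomial (zeroE t) (g t)).degreeOf h ≤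
      ![l * D, D] h := fun h => by
    refine (MvPolynomial.degreeOf_sum_le _ _ _).trans (Finset.sup_le fun t _ => ?_)
    refine MvPolynomial.degreeOf_le_iff.2 fun m hm => ?_
    rw [mem_singleton.1 (MvPolynomial.support_monomial_subset hm)]
    fin_cases h
    · simp only [Fin.zero_eta, zero_e0, Matrix.cons_val_zero]; omega
    · simp only [Fin.mk_one, zero_e1, Matrix.cons_val_one, Matrix.cons_val_zero]; omega
  refine H ![(x : ℚ)⁻¹, (y : ℚ)⁻¹] ![v, l * v] (l * v * D) (l * v)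
    (∑ t, MvPolynomial.monomial (zeroE t) (g t)) ?_ ?_ ?_ ?_ (by omega) ?_ ?_ ?_ ?_
    (zero_ord g hx0 hy0 v l h)
  · intro h; fin_cases h <;> simp <;> omega
  · intro h h' hh
    fin_cases h <;> fin_cases h' <;> simp at hh ⊢
    exact Nat.mul_le_mul_right _ (by omega)
  · intro h
    fin_cases h
    · simpa [Rat.inv_natCast_den_of_pos hx0] using hlx
    · simpa [Rat.inv_natCast_den_of_pos hy0] using hly
  · intro h; fin_cases h <;> simp <;> omega
  · obtain ⟨t, ht⟩ := Function.ne_iff.1 hg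
    intro h0
    have := congrArg (MvPolynomial.coeff (zeroE t)) h0
    rw [MvPolynomial.coeff_sum, sum_eq_single t (fun s _ hs => by
      rw [MvPolynomial.coeff_monomial, if_neg fun e => hs (zero_inj e)]) (by simp)] at this
    exact ht (by simpa using this)
  · intro h
    refine (Nat.mul_le_mul_left _ (hdeg h)).trans ?_
    fin_cases h
    · simp only [Fin.zero_eta, Matrix.cons_val_zero]; exact le_of_eq (by ring)
    · simp
  · have a1 : nrm (∑ t, MvPolynomial.monomial (zeroE t) (g t)) ≤ 2 ^ (8 * (l * D)) := by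
      refine (size_nrm_sum _ _).trans ((sum_le_card_nsmul _ _ (2 ^ (6 * (l * D))) fun t _ => ?_).trans ?_)
      · rw [size_nrm_monomial]
        have := hb t
        zify
        simpa using this
      · have a2 : D ≤ l * D := Nat.le_mul_of_pos_left _ (by omega)
        have a3 : l * D ≤ 2 ^ (l * D) := Nat.lt_two_pow_self.le
        rw [card_univ, Fintype.card_prod, Fintype.card_fin, Fintype.card_fin, smul_eq_mul,
          show 8 * (l * D) = l * D + l * D + 6 * (l * D) by ring, pow_add, pow_add]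
        exact Nat.mul_le_mul_right _ (Nat.mul_le_mul a3 (a2.trans a3))
    have a4 : (8 : ℝ) ≤ lam * v := by
      rw [div_le_iff₀ hl] at hw
      have : (w : ℝ) ≤ v := by exact_mod_cast (show w ≤ v by omega)
      nlinarith
    refine le_trans (by exact_mod_cast a1 : _ ≤ (2 : ℝ) ^ (8 * (l * D))) ?_
    refine (pow_le_pow_left₀ (by norm_num) (show (2 : ℝ) ≤ Real.exp 1 by
      linarith [Real.add_one_le_exp 1]) _).trans ?_
    rw [← Real.exp_nat_mul, Real.exp_le_exp]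
    push_cast
    have : (0 : ℝ) ≤ l * D := by positivity
    nlinarith
  · push_cast
    exact le_of_eq (by field_simp)

end Pool.Agent.P.MP_b2ceab_nt.XE
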