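import Pool.Agent.P.MP_b2ceab_nt.XE.TLEV
import Pool.Agent.P.MP_b2ceab_nt.XE.TOM
import Pool.Agent.P.MP_b2ceab_nt.XE.TCNT
import Pool.Agent.P.MP_b2ceab_nt.XE.TROOT
import Pool.Agent.P.MP_b2ceab_nt.XE.TGAP
import Pool.Agent.P.MP_b2ceab_nt.XE.TCERT
import Pool.Agent.P.MP_b2ceab_nt.XE.TAUX
import Pool.Agent.P.MP_b2ceab_nt.XE.TSHIFT
import Pool.Agent.P.MP_b2ceab_nt.XE.TV1
import Pool.Agent.P.MP_b2ceab_nt.XE.TMIN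
import Pool.Agent.P.MP_b2ceab_nt.XE.TV2
import Pool.Agent.P.MP_b2ceab_nt.XE.TV3
import Pool.Agent.P.MP_b2ceab_nt.XE.TZERO
import Pool.Agent.P.MP_b2ceab_nt.XE.TBEZ
import Pool.Agent.P.MP_b2ceab_nt.XE.TDEP
import Pool.Agent.P.MP_b2ceab_nt.XE.TCOLL
import Pool.Agent.P.MP_b2ceab_nt.XE.TTORS
import Pool.Agent.P.MP_b2ceab_nt.XE.TCURVE
import Pool.Agent.P.MP_b2ceab_nt.XE.TPAIR
import Pool.Agent.P.MP_b2ceab_nt.XE.TFIB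
import Pool.Agent.P.MP_b2ceab_nt.XE.TGOOD
import Pool.Agent.P.MP_b2ceab_nt.XE.TLOW
import Pool.Agent.P.MP_b2ceab_nt.XE.TFIN

/-! Assembly. -/

set_option autoImplicit false

namespace Pool.Agent.P.MP_b2ceab_nt.XE

theorem all_FIN : S_FIN :=
  p_FIN (p_LOW (p_PAIR (p_V1 p_LEV p_AUX p_SHIFT) (p_V2 p_MIN) (p_V3 p_LEV) p_ZERO
    (p_CURVE p_LEV (p_DEP p_LEV) (p_TORS p_BEZ p_COLL))) (p_CERT p_OM (p_GAP p_ROOT))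
    (p_FIB (p_CNT p_OM)) (p_GOOD (p_CNT p_OM))) (p_FIB (p_CNT p_OM))

end Pool.Agent.P.MP_b2ceab_nt.XE
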