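import Mathlib

/-! Interface: at most `X ^ ε` exceptions.  Every `S_*` is proved in its own file. -/

set_option autoImplicit false

namespace Pool.Agent.P.MP_b2ceab_nt.XE

open Finset Polynomial

/-- Equal prime supports at the levels `1, ..., n0`. -/
def Hy (n0 x y : ℕ) : Prop :=
  ∀ n : ℕ, 1 ≤ n → n ≤ n0 → ∀ p : ℕ, p.Prime →
    ((p : ℤ) ∣ (x : ℤ) ^ 2 ^ n - 1 ↔ (p : ℤ) ∣ (y : ℤ) ^ 2 ^ n - 1)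

theorem Hy.symm {n0 x y : ℕ} (h : Hy n0 x y) : Hy n0 y x :=
  fun n a b p hp => (h n a b p hp).symm

theorem Hy.mono {n0 n1 x y : ℕ} (h : Hy n0 x y) (hn : n1 ≤ n0) : Hy n1 x y :=
  fun n a b p hp => h n a (b.trans hn) p hp

/-- The Taylor coefficient of order `I` in the first variable at the point `(x, y)`. -/
def tay {A B : ℕ} (g : Fin A × Fin B → ℤ) (x y : ℤ) (I : ℕ) : ℤ :=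
  ∑ t : Fin A × Fin B, g t * ((t.1 : ℕ).choose I : ℤ) * x ^ ((t.1 : ℕ) - I) * y ^ (t.2 : ℕ)

/-- A large odd divisor of `y ^ K - 1` made of primes of `m`. -/
def Cert (K m y : ℕ) : Prop :=
  ∃ q : ℕ, Odd q ∧ q ∣ y ^ K - 1 ∧ y ^ 3 ≤ q ∧ ∀ p : ℕ, p.Prime → p ∣ q → p ∣ m

/-- `x` is bounded, or some level is made of primes of `c`. -/
def Good (n1 c x : ℕ) : Prop :=
  x ≤ c ∨ ∃ n : ℕ, 1 ≤ n ∧ n ≤ n1 ∧ ∀ p : ℕ, p.Prime → p ∣ x ^ 2 ^ n + 1 → p ∣ c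

/-- A small prime with a large exponent. -/
def Hv (E x y n p : ℕ) : Prop :=
  p ^ E ≤ x ∧ 6 * E * Nat.log x y < (y ^ 2 ^ n + 1).factorization p

instance (E x y n p : ℕ) : Decidable (Hv E x y n p) := by unfold Hv; infer_instance

/-- The part of the levels made of small primes with large exponent. -/
def hvp (E n' x y : ℕ) : ℕ :=
  ∏ n ∈ Icc 1 n', ∏ p ∈ (y ^ 2 ^ n + 1).primeFactors with p ≠ 2 ∧ Hv E x y n p,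
    p ^ (y ^ 2 ^ n + 1).factorization p

/-- The auxiliary polynomial is divisible at all the other odd primes. -/
def Dv (E n' x y : ℕ) {A B : ℕ} (g : Fin A × Fin B → ℤ) : Prop :=
  ∀ n p I : ℕ, 1 ≤ n → n ≤ n' → p.Prime → p ≠ 2 → p ∣ y ^ 2 ^ n + 1 → ¬ Hv E x y n p →
    (p : ℤ) ^ (2 ^ (n' - n) * (y ^ 2 ^ n + 1).factorization p) ∣ tay g x y I * (p : ℤ) ^ I

-- deps: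
def S_LEV : Prop :=
  ∀ n0 x y n p : ℕ, Hy n0 x y → 1 ≤ n → n < n0 → p.Prime → p ≠ 2 → p ∣ y ^ 2 ^ n + 1 →
    p ∣ x ^ 2 ^ n + 1 ∧ 2 * 2 ^ n ∣ p - 1 ∧
      ∃ k : ℕ, k < 2 * 2 ^ n ∧ Odd k ∧ (p : ℤ) ∣ (x : ℤ) - (y : ℤ) ^ k

-- deps:
def S_OM : Prop :=
  ∀ (K : ℕ) (δ : ℝ), 0 < δ → ∃ C : ℝ, 0 < C ∧ ∀ m : ℕ, 1 ≤ m →
    (K : ℝ) ^ m.primeFactors.card ≤ C * (m : ℝ) ^ δ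

-- deps: OM
def S_CNT : Prop :=
  ∀ δ : ℝ, 0 < δ → ∃ C : ℝ, 0 < C ∧ ∀ R Y : ℕ, 1 ≤ R → R ≤ Y → ∀ S : Finset ℕ,
    (∀ u ∈ S, 1 ≤ u ∧ u ≤ Y ∧ ∀ p : ℕ, p.Prime → p ∣ u → p ∣ R) → (S.card : ℝ) ≤ C * (Y : ℝ) ^ δ

-- deps:
def S_ROOT : Prop :=
  ∀ K q : ℕ, 1 ≤ K → Odd q → ∀ S : Finset ℕ, (∀ y ∈ S, y < q ∧ y ^ K ≡ 1 [MOD q]) →
    S.card ≤ K ^ q.primeFactors.card

-- deps: ROOT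
def S_GAP : Prop :=
  ∀ K m Y : ℕ, 1 ≤ K → 1 ≤ m → 2 ≤ Y → ∀ S : Finset ℕ,
    (∀ y ∈ S, Y ≤ y ∧ y < Y ^ 2 ∧ Cert K m y) →
    S.card ≤ (2 ^ (2 * K + 1) * K) ^ m.primeFactors.card

-- deps: OM GAP
-- imports: Pool.Agent.P.MP_7aad9f_nt.SubFinal
def S_CERT : Prop :=
  ∀ (K : ℕ) (δ : ℝ), 1 ≤ K → 0 < δ → ∃ C : ℝ, 0 < C ∧ ∀ X M : ℕ, 1 ≤ X → ∀ S : Finset ℕ,
    (∀ y ∈ S, 2 ≤ y ∧ (∃ R : ℕ, 1 ≤ R ∧ R ≤ X ^ 2 ∧ ∀ p : ℕ, p.Prime → p ∣ y ^ 2 - 1 → p ∣ R) ∧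
      ∃ m : ℕ, 1 ≤ m ∧ m ≤ M ∧ Cert K m y) →
    (S.card : ℝ) ≤ C * (M : ℝ) ^ (1 + δ) * (X : ℝ) ^ δ

-- deps:
def S_AUX : Prop :=
  ∀ (ι : Type) [Fintype ι] (N k a b : ι → ℕ) (A B : ℕ), (∀ i, 0 < N i ∧ k i ≤ 2 * N i) →
    0 < B → B ≤ A → 2 * ∑ i, N i * a i * b i ≤ A * B →
    ∃ g : Fin A × Fin B → ℤ, g ≠ 0 ∧ (∀ t, |g t| ≤ 2 ^ (6 * A)) ∧
      ∀ (i : ι) (y : ℤ) (j : ℕ), j < a i → (y ^ N i + 1) ^ b i ∣ tay g (y ^ k i) y j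

-- deps:
def S_SHIFT : Prop :=
  ∀ (A B : ℕ) (g : Fin A × Fin B → ℤ) (x z y p : ℤ) (a c I : ℕ), p ∣ x - z → c ≤ a →
    (∀ j, j < a → p ^ c ∣ tay g z y j) → p ^ c ∣ tay g x y I * p ^ I

-- deps: LEV AUX SHIFT
def S_V1 : Prop :=
  ∀ E n' d x y : ℕ, 1 ≤ E → 32 * n' * E ≤ d ^ 2 → 0 < d → 2 ≤ x → x < y → Hy (n' + 1) x y →
    ∃ g : Fin (Nat.log x y * (d * 2 ^ n')) × Fin (d * 2 ^ n') → ℤ, g ≠ 0 ∧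
      (∀ t, |g t| ≤ 2 ^ (6 * (Nat.log x y * (d * 2 ^ n')))) ∧ Dv E n' x y g

-- deps:
def S_MIN : Prop :=
  ∀ (ι : Type) (T : Finset ι) (φ ψ : ι → ℕ) (E L x Z : ℕ),
    (∀ t ∈ T, ψ t ^ (E * L) ≤ φ t ∧ ψ t ^ E ≤ x) → 1 < Z → Z ≤ x ^ L → Z ≤ ∏ t ∈ T, φ t →
    ∃ T' ⊆ T, Z ≤ ∏ t ∈ T', φ t ∧ (∏ t ∈ T', ψ t) ^ E ≤ x ^ 2

-- deps: MIN
def S_V2 : Prop :=
  ∀ E n' x y : ℕ, 2 ≤ x → x < y → y ^ 3 ≤ hvp E n' x y →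
    ∃ m : ℕ, 1 ≤ m ∧ m ^ E ≤ x ^ 2 ∧ Cert (2 * 2 ^ n') m y

-- deps: LEV
def S_V3 : Prop :=
  ∀ E n' d x y : ℕ, 3 * d + 6 < n' → 512 ≤ x → 2 ^ n' ≤ x → x < y → Hy (n' + 1) x y →
    hvp E n' x y < y ^ 3 →
    ∀ g : Fin (Nat.log x y * (d * 2 ^ n')) × Fin (d * 2 ^ n') → ℤ,
      (∀ t, |g t| ≤ 2 ^ (6 * (Nat.log x y * (d * 2 ^ n')))) → Dv E n' x y g →
      ∀ I : ℕ, I ≤ Nat.log x y → tay g x y I = 0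

-- deps:
-- imports: Pool.Agent.P.MP_fc15d7_nt.TROTH Pool.Agent.P.MP_fc15d7_nt.TELIM
def S_ZERO : Prop :=
  ∀ D : ℕ, 1 ≤ D → ∃ l0 x0 : ℕ, ∀ l x y : ℕ, l0 ≤ l → x0 ≤ x → x ^ l ≤ y →
    ∀ g : Fin (l * D) × Fin D → ℤ, g ≠ 0 → (∀ t, |g t| ≤ 2 ^ (6 * (l * D))) →
      ¬ ∀ I : ℕ, I ≤ l → tay g x y I = 0

-- deps:
def S_BEZ : Prop :=
  ∀ (R : Type) [CommRing R] [IsDomain R] (F H : R[X]), Prime F → 0 < F.natDegree → ¬ F ∣ H →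
    ∃ ρ : R, ρ ≠ 0 ∧ ∃ U V : R[X], C ρ = U * F + V * H

-- deps: LEV
def S_DEP : Prop :=
  ∀ n x y a l a' l' : ℕ, 1 ≤ n → 2 ≤ x → x < y → Hy (n + 1) x y → a ≤ 2 ^ n → a' ≤ 2 ^ n →
    x ^ a * y ^ l = x ^ a' * y ^ l' → a = a' ∧ l = l'

-- deps:
def S_COLL : Prop :=
  ∀ (F : ℤ[X][X]) (N k : ℕ), F ≠ 0 → 0 < N →
    (X ^ N + 1 : ℤ[X]) ∣ (F.map (eval₂RingHom (C : ℤ →+* ℤ[X]) (X ^ k))).eval X →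
    ∃ a l a' l' : ℕ, (F.coeff l).coeff a ≠ 0 ∧ (F.coeff l').coeff a' ≠ 0 ∧
      ¬ (a = a' ∧ l = l') ∧ k * a + l ≡ k * a' + l' [MOD N]

-- deps: BEZ COLL
def S_TORS : Prop :=
  ∀ F : ℤ[X][X], Prime F → 0 < F.natDegree → ∃ n c : ℕ, 1 ≤ n ∧ 0 < c ∧
    ((∃ a l a' l' : ℕ, a ≤ 2 ^ n ∧ a' ≤ 2 ^ n ∧ ¬ (a = a' ∧ l = l') ∧
        ∀ x y : ℤ, F.evalEval x y = 0 → x ^ a * y ^ l = x ^ a' * y ^ l') ∨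
      ∀ (x y : ℤ) (p k : ℕ), Odd k → k < 2 * 2 ^ n → F.evalEval x y = 0 →
        (p : ℤ) ∣ y ^ 2 ^ n + 1 → (p : ℤ) ∣ x - y ^ k → p ∣ c)

-- deps: LEV DEP TORS
def S_CURVE : Prop :=
  ∀ (A B : ℕ) (g : Fin A × Fin B → ℤ), g ≠ 0 → ∃ n1 c : ℕ, 0 < c ∧ ∀ x y : ℕ, 2 ≤ x → x < y →
    Hy (n1 + 1) x y → tay g x y 0 = 0 → Good n1 c x

-- deps: V1 V2 V3 ZERO CURVE
def S_PAIR : Prop :=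
  ∀ E : ℕ, 1 ≤ E → ∃ n0 K c : ℕ, 1 ≤ n0 ∧ 1 ≤ K ∧ 0 < c ∧ ∀ x y : ℕ, 2 ≤ x → x < y → Hy n0 x y →
    Good n0 c x ∨ ∃ m : ℕ, 1 ≤ m ∧ m ^ E ≤ x ^ 2 ∧ Cert K m y

-- deps: CNT
def S_FIB : Prop :=
  ∀ δ : ℝ, 0 < δ → ∃ C : ℝ, 0 < C ∧ ∀ X : ℕ, ∀ S T : Finset ℕ,
    (∀ x ∈ S, 2 ≤ x ∧ x ≤ X ∧ ∃ y ∈ T, Hy 1 x y) → (S.card : ℝ) ≤ C * (X : ℝ) ^ δ * T.card

-- deps: CNT
def S_GOOD : Prop :=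
  ∀ (n1 c : ℕ) (δ : ℝ), 0 < c → 0 < δ → ∃ C : ℝ, 0 < C ∧ ∀ X : ℕ, ∀ S : Finset ℕ,
    (∀ x ∈ S, 1 ≤ x ∧ x ≤ X ∧ Good n1 c x) → (S.card : ℝ) ≤ C * (X : ℝ) ^ δ

-- deps: PAIR CERT FIB GOOD
def S_LOW : Prop :=
  ∀ ε : ℝ, 0 < ε → ∃ (n0 : ℕ) (C : ℝ), 1 ≤ n0 ∧ 0 < C ∧ ∀ X : ℕ, ∀ S : Finset ℕ,
    (∀ x ∈ S, 2 ≤ x ∧ x ≤ X ∧ ∃ y, x < y ∧ Hy n0 x y) → (S.card : ℝ) ≤ C * (X : ℝ) ^ ε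

-- deps: LOW FIB
def S_FIN : Prop :=
  ∀ ε : ℝ, 0 < ε → ∃ (n0 : ℕ) (C : ℝ), ∀ X : ℕ,
    (Set.ncard {x : ℕ | 1 ≤ x ∧ x ≤ X ∧ ∃ y : ℕ, 0 < y ∧ y ≠ x ∧ Hy n0 x y} : ℝ) ≤
      C * (X : ℝ) ^ ε

end Pool.Agent.P.MP_b2ceab_nt.XE
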