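import Pool.Agent.P.MP_b2ceab_nt.XE.Iface

/-! Step FIB. -/

set_option autoImplicit false
set_option linter.unusedSectionVars false

namespace Pool.Agent.P.MP_b2ceab_nt.XE

open Finset Polynomial

theorem fib_cast {x p : ℕ} (hx : 1 ≤ x) : (p : ℤ) ∣ (x : ℤ) ^ 2 ^ 1 - 1 ↔ p ∣ x ^ 2 - 1 := by
  rw [← Int.natCast_dvd_natCast, Nat.cast_sub (Nat.one_le_pow _ _ hx)]
  simp

theorem p_FIB (hCNT : S_CNT) :
    S_FIB := by
  classical
  intro δ hδ
  obtain ⟨C, hC, H⟩ := hCNT (δ / 2) (by positivity)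
  refine ⟨C, hC, fun X S T h => ?_⟩
  have k : ∀ y ∈ T, ((S.filter fun x => Hy 1 x y).card : ℝ) ≤ C * (X : ℝ) ^ δ := fun y _ => by
    rcases (S.filter fun x => Hy 1 x y).eq_empty_or_nonempty with e | ⟨x0, hx0⟩
    · rw [e]; simp; positivity
    obtain ⟨a1, a2⟩ := mem_filter.1 hx0
    have b : ∀ x ∈ S, 1 ≤ x ^ 2 - 1 ∧ x ^ 2 - 1 ≤ X ^ 2 := fun x hx => by
      have := Nat.pow_le_pow_left (h x hx).1 2
      have := Nat.pow_le_pow_left (h x hx).2.1 2
      omega
    have inj : Set.InjOn (fun x => x ^ 2 - 1) (S.filter fun x => Hy 1 x y) := fun u hu v hv e => by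
      have := (b u (mem_filter.1 hu).1).1
      have := (b v (mem_filter.1 hv).1).1
      exact Nat.pow_left_injective two_ne_zero (show u ^ 2 = v ^ 2 by simp only at e; omega)
    have := H _ (X ^ 2) (b x0 a1).1 (b x0 a1).2 ((S.filter fun x => Hy 1 x y).image
      fun x => x ^ 2 - 1) fun u hu => by
        obtain ⟨x, hx, rfl⟩ := mem_image.1 hu
        obtain ⟨a3, a4⟩ := mem_filter.1 hx
        refine ⟨(b x a3).1, (b x a3).2, fun p hp d => ?_⟩
        rw [← fib_cast (by have := (h x a3).1; omega)] at d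
        rw [← fib_cast (by have := (h x0 a1).1; omega)]
        exact (a2 1 le_rfl le_rfl p hp).2 ((a4 1 le_rfl le_rfl p hp).1 d)
    rw [card_image_of_injOn inj, Nat.cast_pow, ← Real.rpow_natCast, ← Real.rpow_mul (by positivity)]
      at this
    rwa [show ((2 : ℕ) : ℝ) * (δ / 2) = δ by push_cast; ring] at this
  have s : S ⊆ T.biUnion fun y => S.filter fun x => Hy 1 x y := fun x hx => by
    obtain ⟨y, hy, a⟩ := (h x hx).2.2
    exact mem_biUnion.2 ⟨y, hy, mem_filter.2 ⟨hx, a⟩⟩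
  have := (card_le_card s).trans card_biUnion_le
  refine le_trans (by exact_mod_cast this) ((sum_le_card_nsmul _ _ _ k).trans ?_)
  rw [nsmul_eq_mul, mul_comm]

end Pool.Agent.P.MP_b2ceab_nt.XE
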