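import Pool.Agent.P.MP_b2ceab_nt.XE.Iface

/-! Step LEV. -/

set_option autoImplicit false
set_option linter.unusedSectionVars false

namespace Pool.Agent.P.MP_b2ceab_nt.XE

open Finset Polynomial

theorem p_LEV :
    S_LEV := by
  intro n0 x y n p h h1 hn hp h2 hy
  haveI := Fact.mk hp
  have two : (2 : ZMod p) ≠ 0 := fun e => h2 ((Nat.prime_dvd_prime_iff_eq hp Nat.prime_two).1
    ((ZMod.natCast_eq_zero_iff 2 p).1 (by exact_mod_cast e)))
  have c : ∀ z m : ℕ, (p : ℤ) ∣ (z : ℤ) ^ m - 1 ↔ (z : ZMod p) ^ m = 1 := fun z m => by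
    rw [← ZMod.intCast_zmod_eq_zero_iff_dvd, ← sub_eq_zero (b := (1 : ZMod p))]
    push_cast
    rfl
  have y1 : (y : ZMod p) ^ 2 ^ n = -1 := by
    have := (ZMod.natCast_eq_zero_iff _ p).2 hy
    push_cast at this
    exact eq_neg_of_add_eq_zero_left this
  have m1 : (-1 : ZMod p) ≠ 1 := fun e => two (by linear_combination -e)
  have y2 : (y : ZMod p) ^ 2 ^ (n + 1) = 1 := by rw [pow_succ, pow_mul, y1]; ring
  have x2 := (c _ _).1 ((h (n + 1) (by omega) (by omega) p hp).2 ((c _ _).2 y2))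
  have x1 : (x : ZMod p) ^ 2 ^ n = -1 := by
    rw [pow_succ, pow_mul] at x2
    refine (sq_eq_one_iff.1 x2).resolve_left fun e => m1 ?_
    rw [← y1]
    exact (c _ _).1 ((h n h1 hn.le p hp).1 ((c _ _).2 e))
  have o : orderOf (y : ZMod p) = 2 ^ (n + 1) :=
    orderOf_eq_prime_pow (by rw [y1]; exact m1) y2
  have y0 : (y : ZMod p) ≠ 0 := fun e => by
    rw [e, zero_pow (by positivity)] at y2
    exact zero_ne_one y2
  have pr := IsPrimitiveRoot.orderOf (y : ZMod p)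
  rw [o] at pr
  obtain ⟨k, hk, e⟩ := pr.eq_pow_of_pow_eq_one x2
  refine ⟨?_, ?_, k, by rwa [pow_succ'] at hk, ?_, ?_⟩
  · rw [← ZMod.natCast_eq_zero_iff]
    push_cast
    rw [x1]; ring
  · rw [← pow_succ', ← o]
    exact ZMod.orderOf_dvd_card_sub_one y0
  · by_contra c2
    rw [← e, ← pow_mul, mul_comm, pow_mul, y1, (Nat.not_odd_iff_even.1 c2).neg_one_pow] at x1
    exact m1 x1.symm
  · rw [← ZMod.intCast_zmod_eq_zero_iff_dvd]
    push_cast
    rw [e, sub_self]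

end Pool.Agent.P.MP_b2ceab_nt.XE
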