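import Pool.Agent.P.MP_b2ceab_nt.XE.Iface

/-! Step MIN. -/

set_option autoImplicit false
set_option linter.unusedSectionVars false

namespace Pool.Agent.P.MP_b2ceab_nt.XE

open Finset Polynomial

theorem p_MIN :
    S_MIN := by
  classical
  intro ι T φ ψ E L x Z h h1 hZ hT
  obtain ⟨T', hT', hmin⟩ := exists_min_image (T.powerset.filter fun S => Z ≤ ∏ t ∈ S, φ t) card
    ⟨T, by simp [hT]⟩
  obtain ⟨a1, a2⟩ := mem_filter.1 hT'
  rw [mem_powerset] at a1
  refine ⟨T', a1, a2, ?_⟩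
  obtain ⟨t0, ht0⟩ : T'.Nonempty := by
    rw [nonempty_iff_ne_empty]
    rintro rfl
    simp at a2
    omega
  have a3 : ∏ t ∈ T'.erase t0, φ t < Z := by
    by_contra c
    have := hmin (T'.erase t0) (mem_filter.2 ⟨mem_powerset.2 ((erase_subset _ _).trans a1),
      not_lt.1 c⟩)
    have := card_erase_lt_of_mem ht0
    omega
  have a4 : ((∏ t ∈ T'.erase t0, ψ t) ^ E) ^ L < x ^ L := by
    rw [← pow_mul, ← prod_pow]
    exact lt_of_le_of_lt (prod_le_prod' fun t ht => (h t (a1 (mem_of_mem_erase ht))).1)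
      (a3.trans_le hZ)
  rw [← mul_prod_erase _ _ ht0, mul_pow, sq]
  exact Nat.mul_le_mul (h t0 (a1 ht0)).2 (lt_of_pow_lt_pow_left₀ L (Nat.zero_le _) a4).le

end Pool.Agent.P.MP_b2ceab_nt.XE
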